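import Pool.Agent.H37.UM.Stmts

set_option autoImplicit false

namespace Pool.Agent.H37.UM

open Finset
open PowerSeries (coeff X)

namespace IVN

/-- majorant at `z` of a real power series with nonnegative coefficients -/
structure MR (z : ℝ) (f : PowerSeries ℝ) (A : ℝ) : Prop where
  nonneg : ∀ k, 0 ≤ coeff k f
  le : ∀ K : ℕ, ∑ k ∈ range K, coeff k f * z ^ k ≤ A

lemma MR.A_nonneg {z : ℝ} {f : PowerSeries ℝ} {A : ℝ} (h : MR z f A) : 0 ≤ A := by
  have := h.le 0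
  simpa using this

lemma MR.mono {z : ℝ} {f : PowerSeries ℝ} {A B : ℝ} (h : MR z f A) (hAB : A ≤ B) : MR z f B :=
  ⟨h.nonneg, fun K => (h.le K).trans hAB⟩

lemma MR.mul {z : ℝ} {f g : PowerSeries ℝ} {A B : ℝ} (hz : 0 ≤ z) (hf : MR z f A)
    (hg : MR z g B) : MR z (f * g) (A * B) := by
  constructor
  · intro k
    rw [PowerSeries.coeff_mul]
    exact Finset.sum_nonneg fun p _ => mul_nonneg (hf.nonneg _) (hg.nonneg _)
  · intro K
    have h1 : ∑ k ∈ range K, coeff k (f * g) * z ^ k =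
        ∑ k ∈ range K, ∑ i ∈ range (k + 1), (coeff i f * z ^ i) * (coeff (k - i) g * z ^ (k - i)) := by
      apply Finset.sum_congr rfl
      intro k _
      rw [PowerSeries.coeff_mul, Finset.Nat.sum_antidiagonal_eq_sum_range_succ
        (fun i j => coeff i f * coeff j g), Finset.sum_mul]
      apply Finset.sum_congr rfl
      intro i hi
      rw [Finset.mem_range] at hi
      have h2 : z ^ k = z ^ i * z ^ (k - i) := by rw [← pow_add]; congr 1; omega
      rw [h2]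
      ring
    rw [h1, Finset.sum_range_diag_flip K (fun i j => (coeff i f * z ^ i) * (coeff j g * z ^ j))]
    calc ∑ m ∈ range K, ∑ k ∈ range (K - m), coeff m f * z ^ m * (coeff k g * z ^ k)
        ≤ ∑ m ∈ range K, coeff m f * z ^ m * B := by
          apply Finset.sum_le_sum
          intro m _
          rw [← Finset.mul_sum]
          exact mul_le_mul_of_nonneg_left (hg.le _) (mul_nonneg (hf.nonneg m) (by positivity))
      _ = (∑ m ∈ range K, coeff m f * z ^ m) * B := by rw [Finset.sum_mul]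
      _ ≤ A * B := mul_le_mul_of_nonneg_right (hf.le K) hg.A_nonneg

lemma MR.add {z : ℝ} {f g : PowerSeries ℝ} {A B : ℝ} (hf : MR z f A)
    (hg : MR z g B) : MR z (f + g) (A + B) := by
  constructor
  · intro k
    rw [map_add]
    exact add_nonneg (hf.nonneg _) (hg.nonneg _)
  · intro K
    simp only [map_add, add_mul, Finset.sum_add_distrib]
    exact add_le_add (hf.le K) (hg.le K)

lemma MR.mono_X {z u : ℝ} (hz : 0 ≤ z) (hu : 0 ≤ u) (i : ℕ) :
    MR z (PowerSeries.C u * X ^ i) (u * z ^ i) := by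
  have h1 : ∀ k, coeff k (PowerSeries.C u * X ^ i : PowerSeries ℝ) = if k = i then u else 0 := by
    intro k
    rw [PowerSeries.coeff_C_mul, PowerSeries.coeff_X_pow]
    split_ifs <;> simp
  constructor
  · intro k
    rw [h1]
    split_ifs
    · exact hu
    · exact le_rfl
  · intro K
    simp only [h1, ite_mul, zero_mul, Finset.sum_ite_eq', Finset.mem_range]
    split_ifs
    · exact le_rfl
    · positivity

lemma MR.one {z : ℝ} (hz : 0 ≤ z) : MR z (1 : PowerSeries ℝ) 1 := by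
  have := MR.mono_X hz (zero_le_one) 0
  simpa using this

lemma MR.pow {z : ℝ} {f : PowerSeries ℝ} {A : ℝ} (hz : 0 ≤ z) (hf : MR z f A) (l : ℕ) :
    MR z (f ^ l) (A ^ l) := by
  induction l with
  | zero => simpa using MR.one hz
  | succ l ih => rw [pow_succ, pow_succ]; exact ih.mul hz hf

lemma MR.prod {z : ℝ} (hz : 0 ≤ z) (s : Finset ℕ) (f : ℕ → PowerSeries ℝ) (A : ℕ → ℝ)
    (h : ∀ i ∈ s, MR z (f i) (A i)) : MR z (∏ i ∈ s, f i) (∏ i ∈ s, A i) := by
  induction s using Finset.induction_on with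
  | empty => simpa using MR.one hz
  | insert a s ha ih =>
    rw [Finset.prod_insert ha, Finset.prod_insert ha]
    exact (h a (Finset.mem_insert_self a s)).mul hz
      (ih fun i hi => h i (Finset.mem_insert_of_mem hi))

/-- the geometric series -/
noncomputable def gi (v : ℝ) (i : ℕ) : PowerSeries ℝ := (1 - PowerSeries.C v * X ^ i)⁻¹

lemma gi_rec (v : ℝ) (i n : ℕ) (hi : 1 ≤ i) :
    coeff n (gi v i) = (if n = 0 then 1 else 0) + if i ≤ n then v * coeff (n - i) (gi v i) else 0 := by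
  have h0 : PowerSeries.constantCoeff (1 - PowerSeries.C v * X ^ i : PowerSeries ℝ) ≠ 0 := by
    have : i ≠ 0 := by omega
    simp [this]
  have h1 : (1 - PowerSeries.C v * X ^ i) * gi v i = 1 := PowerSeries.mul_inv_cancel _ h0
  have h2 : gi v i = 1 + PowerSeries.C v * (X ^ i * gi v i) := by
    linear_combination h1
  have h3 := congrArg (coeff n) h2
  rw [map_add, PowerSeries.coeff_one, PowerSeries.coeff_C_mul, PowerSeries.coeff_X_pow_mul'] at h3
  rw [h3]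
  congr 1
  split_ifs <;> simp

lemma gi_MR {z v : ℝ} (hz : 0 ≤ z) (hv : 0 ≤ v) (i : ℕ) (hi : 1 ≤ i) (h : v * z ^ i < 1) :
    MR z (gi v i) (1 / (1 - v * z ^ i)) := by
  have hpos : 0 < 1 - v * z ^ i := by linarith
  constructor
  · intro k
    induction k using Nat.strong_induction_on with
    | _ k ih =>
      rw [gi_rec v i k hi]
      apply add_nonneg
      · split_ifs <;> norm_num
      · split_ifs with h1
        · exact mul_nonneg hv (ih _ (by omega))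
        · exact le_rfl
  · intro K
    induction K using Nat.strong_induction_on with
    | _ K ih =>
      have h1 : ∑ k ∈ range K, coeff k (gi v i) * z ^ k ≤
          1 + v * z ^ i * ∑ k ∈ range (K - i), coeff k (gi v i) * z ^ k := by
        have h2 : ∑ k ∈ range K, coeff k (gi v i) * z ^ k =
            ∑ k ∈ range K, (if k = 0 then 1 else 0) * z ^ k +
            ∑ k ∈ range K, (if i ≤ k then v * coeff (k - i) (gi v i) else 0) * z ^ k := by
          rw [← Finset.sum_add_distrib]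
          apply Finset.sum_congr rfl
          intro k _
          conv_lhs => rw [gi_rec v i k hi]
          ring
        rw [h2]
        apply add_le_add
        · simp only [ite_mul, zero_mul, one_mul, Finset.sum_ite_eq', Finset.mem_range]
          split_ifs <;> simp
        · rw [Finset.mul_sum]
          apply le_of_eq
          simp only [ite_mul, zero_mul]
          rw [← Finset.sum_filter]
          symm
          apply Finset.sum_nbij' (fun k => k + i) (fun k => k - i)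
          · intro k hk
            simp only [Finset.mem_range, Finset.mem_filter] at *
            omega
          · intro k hk
            simp only [Finset.mem_range, Finset.mem_filter] at *
            omega
          · intro k hk
            omega
          · intro k hk
            simp only [Finset.mem_filter] at *
            omega
          · intro k _
            rw [Nat.add_sub_cancel, pow_add]
            ring
      rcases Nat.eq_zero_or_pos K with hK | hK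
      · subst hK
        simp only [Finset.range_zero, Finset.sum_empty]
        positivity
      · have h3 := ih (K - i) (by omega)
        have h4 : v * z ^ i * ∑ k ∈ range (K - i), coeff k (gi v i) * z ^ k ≤
            v * z ^ i * (1 / (1 - v * z ^ i)) :=
          mul_le_mul_of_nonneg_left h3 (by positivity)
        have h5 : 1 + v * z ^ i * (1 / (1 - v * z ^ i)) = 1 / (1 - v * z ^ i) := by
          field_simp
          ring
        linarith

/-- Weierstrass' inequality -/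
lemma weier (s : Finset ℕ) (x : ℕ → ℝ) (h0 : ∀ i ∈ s, 0 ≤ x i) (h1 : ∀ i ∈ s, x i ≤ 1) :
    1 - ∑ i ∈ s, x i ≤ ∏ i ∈ s, (1 - x i) ∧ ∏ i ∈ s, (1 - x i) ≤ 1 := by
  induction s using Finset.induction_on with
  | empty => simp
  | insert a s ha ih =>
    have ih' := ih (fun i hi => h0 i (Finset.mem_insert_of_mem hi))
      (fun i hi => h1 i (Finset.mem_insert_of_mem hi))
    rw [Finset.prod_insert ha, Finset.sum_insert ha]
    have h2 := h0 a (Finset.mem_insert_self a s)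
    have h3 := h1 a (Finset.mem_insert_self a s)
    have h4 : 0 ≤ ∏ i ∈ s, (1 - x i) := by
      apply Finset.prod_nonneg
      intro i hi
      linarith [h1 i (Finset.mem_insert_of_mem hi)]
    constructor
    · nlinarith [ih'.1, ih'.2]
    · nlinarith [ih'.1, ih'.2]

lemma geom_le (q : ℝ) (hq0 : 0 ≤ q) (hq1 : q < 1) (a k : ℕ) :
    ∑ i ∈ Icc a k, q ^ i ≤ q ^ a / (1 - q) := by
  have h1 : 0 < 1 - q := by linarith
  rcases lt_or_ge k a with h | h
  · rw [Finset.Icc_eq_empty_of_lt h, Finset.sum_empty]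
    positivity
  · rw [le_div_iff₀ h1]
    have h2 : (∑ i ∈ Icc a k, q ^ i) * (1 - q) = q ^ a - q ^ (k + 1) := by
      induction k, h using Nat.le_induction with
      | base => simp; ring
      | succ k hk ih =>
        rw [Finset.sum_Icc_succ_top (by omega), add_mul, ih]
        ring
    rw [h2]
    have : 0 ≤ q ^ (k + 1) := by positivity
    linarith

lemma G0_MR (l k : ℕ) (t z : ℝ) (ht : 0 ≤ t) (hz : 0 ≤ z) (hq : t * z < 1) :
    MR z (G0 l k t) (Real.exp (l * ((t * z) ^ 2 / (1 - t * z)))) := by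
  have h1 : MR z (G0 l k t) (∏ i ∈ Icc 2 k, (1 + (t * z) ^ i) ^ l) := by
    unfold G0
    apply MR.prod hz
    intro i _
    apply MR.pow hz
    have := (MR.one hz).add (MR.mono_X hz (pow_nonneg ht i) i)
    rw [← mul_pow] at this
    exact this
  apply h1.mono
  have hq0 : 0 ≤ t * z := mul_nonneg ht hz
  calc ∏ i ∈ Icc 2 k, (1 + (t * z) ^ i) ^ l ≤ ∏ i ∈ Icc 2 k, Real.exp (l * (t * z) ^ i) := by
        apply Finset.prod_le_prod
        · intro i _
          positivity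
        · intro i _
          rw [Real.exp_nat_mul]
          apply pow_le_pow_left₀ (by positivity)
          rw [add_comm]
          exact Real.add_one_le_exp _
    _ = Real.exp (∑ i ∈ Icc 2 k, (l : ℝ) * (t * z) ^ i) := (Real.exp_sum _ _).symm
    _ ≤ _ := by
        apply Real.exp_le_exp.mpr
        rw [← Finset.mul_sum]
        apply mul_le_mul_of_nonneg_left _ (Nat.cast_nonneg l)
        exact geom_le (t * z) hq0 hq 2 k

lemma G1_eq (l k : ℕ) (t : ℝ) :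
    G1 l k t = G0 l k t * ∏ i ∈ Icc 2 k, gi (t ^ (i - 1)) i := by
  unfold G1 G0 gi
  rw [← Finset.prod_mul_distrib]

lemma G1_MR (l k : ℕ) (t z : ℝ) (ht : 0 ≤ t) (hz : 0 ≤ z) (hq : t * z < 1) (hv : t * z ^ 2 < 1)
    (hvq : t * z ^ 2 * (t * z) / (1 - t * z) < 1) :
    MR z (G1 l k t) (Real.exp (l * ((t * z) ^ 2 / (1 - t * z))) *
      (1 / ((1 - t * z ^ 2) * (1 - t * z ^ 2 * (t * z) / (1 - t * z))))) := by
  rw [G1_eq]
  apply (G0_MR l k t z ht hz hq).mul hz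
  have hq0 : 0 ≤ t * z := mul_nonneg ht hz
  have hx : ∀ i ∈ Icc 2 k, t ^ (i - 1) * z ^ i = t * z ^ 2 * (t * z) ^ (i - 2) := by
    intro i hi
    rw [Finset.mem_Icc] at hi
    obtain ⟨j, rfl⟩ : ∃ j, i = j + 2 := ⟨i - 2, by omega⟩
    rw [Nat.add_sub_cancel, show j + 2 - 1 = j + 1 by omega]
    ring
  have hv0 : 0 ≤ t * z ^ 2 := by positivity
  have hx1 : ∀ i ∈ Icc 2 k, t ^ (i - 1) * z ^ i ≤ t * z ^ 2 := by
    intro i hi
    rw [hx i hi]
    have : (t * z) ^ (i - 2) ≤ 1 := pow_le_one₀ hq0 hq.le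
    nlinarith
  have hx0 : ∀ i ∈ Icc 2 k, 0 ≤ t ^ (i - 1) * z ^ i := fun i _ => by positivity
  have h1 : MR z (∏ i ∈ Icc 2 k, gi (t ^ (i - 1)) i)
      (∏ i ∈ Icc 2 k, 1 / (1 - t ^ (i - 1) * z ^ i)) := by
    apply MR.prod hz
    intro i hi
    have hi' := hi
    rw [Finset.mem_Icc] at hi'
    exact gi_MR hz (by positivity) i (by omega) (lt_of_le_of_lt (hx1 i hi) hv)
  apply h1.mono
  have hA : 0 < 1 - t * z ^ 2 := by linarith
  have hB : 0 < 1 - t * z ^ 2 * (t * z) / (1 - t * z) := by linarith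
  rcases lt_or_ge k 2 with hk | hk
  · rw [Finset.Icc_eq_empty_of_lt hk, Finset.prod_empty]
    rw [le_div_iff₀ (by positivity), one_mul]
    have h2 : 1 - t * z ^ 2 ≤ 1 := by linarith
    have h3 : 1 - t * z ^ 2 * (t * z) / (1 - t * z) ≤ 1 := by
      have : 0 ≤ t * z ^ 2 * (t * z) / (1 - t * z) := by
        apply div_nonneg (by positivity)
        linarith
      linarith
    calc (1 - t * z ^ 2) * (1 - t * z ^ 2 * (t * z) / (1 - t * z)) ≤ 1 * 1 :=
          mul_le_mul h2 h3 hB.le zero_le_one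
      _ = 1 := by norm_num
  · rw [Finset.prod_div_distrib, Finset.prod_const_one]
    apply one_div_le_one_div_of_le (by positivity)
    rw [← Finset.insert_Icc_add_one_left_eq_Icc hk, Finset.prod_insert (by simp)]
    have e1 : t ^ (2 - 1) * z ^ 2 = t * z ^ 2 := by norm_num
    rw [e1]
    apply mul_le_mul_of_nonneg_left _ hA.le
    have hsub : ∀ i ∈ Icc (2 + 1) k, i ∈ Icc 2 k := by
      intro i hi
      rw [Finset.mem_Icc] at *
      omega
    have h2 := (weier (Icc (2 + 1) k) (fun i => t ^ (i - 1) * z ^ i)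
      (fun i hi => hx0 i (hsub i hi)) (fun i hi => (hx1 i (hsub i hi)).trans hv.le)).1
    have h3 : ∑ i ∈ Icc (2 + 1) k, t ^ (i - 1) * z ^ i ≤ t * z ^ 2 * (t * z) / (1 - t * z) := by
      have h4 : ∑ i ∈ Icc (2 + 1) k, t ^ (i - 1) * z ^ i =
          t * z ^ 2 * ∑ i ∈ Icc (2 + 1) k, (t * z) ^ (i - 2) := by
        rw [Finset.mul_sum]
        apply Finset.sum_congr rfl
        intro i hi
        exact hx i (hsub i hi)
      have h5 : ∑ i ∈ Icc (2 + 1) k, (t * z) ^ (i - 2) = ∑ i ∈ Icc 1 (k - 2), (t * z) ^ i := by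
        apply Finset.sum_nbij' (fun i => i - 2) (fun i => i + 2)
        · intro i hi
          simp only [Finset.mem_Icc] at *
          omega
        · intro i hi
          simp only [Finset.mem_Icc] at *
          omega
        · intro i hi
          simp only [Finset.mem_Icc] at *
          omega
        · intro i hi
          simp only [Finset.mem_Icc] at *
          omega
        · intro i _
          rfl
      rw [h4, h5, mul_div_assoc]
      apply mul_le_mul_of_nonneg_left _ hv0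
      have := geom_le (t * z) hq0 hq 1 (k - 2)
      rwa [pow_one] at this
    linarith

lemma gi_zero (v : ℝ) (i : ℕ) (hi : 1 ≤ i) : coeff 0 (gi v i) = 1 := by
  rw [gi_rec v i 0 hi, if_pos rfl, if_neg (by omega), add_zero]

lemma cc_G0 (l k : ℕ) (t : ℝ) : PowerSeries.constantCoeff (G0 l k t) = 1 := by
  unfold G0
  rw [map_prod]
  apply Finset.prod_eq_one
  intro i hi
  rw [Finset.mem_Icc] at hi
  have : i ≠ 0 := by omega
  simp [this]

lemma cc_G1 (l k : ℕ) (t : ℝ) : PowerSeries.constantCoeff (G1 l k t) = 1 := by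
  rw [G1_eq, map_mul, cc_G0, map_prod, one_mul]
  apply Finset.prod_eq_one
  intro i hi
  rw [Finset.mem_Icc] at hi
  have h1 := gi_zero (t ^ (i - 1)) i (by omega)
  rwa [PowerSeries.coeff_zero_eq_constantCoeff_apply] at h1

/-- bound of `EE` -/
lemma EE_le (L k : ℕ) (t : ℝ) (ht : 0 ≤ t) (ht2 : t ≤ 1 / 4) :
    EE L k t ≤ Real.exp ((L - 1 : ℕ) * (t ^ 2 / (1 - t))) * (1 / ((1 - t) * (1 - t * t / (1 - t)))) - 1 := by
  have h0 : t * 1 ^ 2 * (t * 1) / (1 - t * 1) < 1 := by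
    simp only [one_pow, mul_one]
    rw [div_lt_one (by linarith)]
    nlinarith
  have h1 := G1_MR (L - 1) k t 1 ht zero_le_one (by linarith) (by linarith) h0
  simp only [mul_one, one_pow] at h1
  have h2 := h1.le (k + 1)
  simp only [one_pow, mul_one] at h2
  have h3 : ∑ j ∈ Icc 2 k, coeff j (G1 (L - 1) k t) + 1 ≤
      ∑ j ∈ range (k + 1), coeff j (G1 (L - 1) k t) := by
    have h4 : ∑ j ∈ Icc 2 k, coeff j (G1 (L - 1) k t) + 1 =
        ∑ j ∈ insert 0 (Icc 2 k), coeff j (G1 (L - 1) k t) := by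
      rw [Finset.sum_insert (by simp), add_comm]
      congr 1
      rw [PowerSeries.coeff_zero_eq_constantCoeff_apply, cc_G1]
    rw [h4]
    apply Finset.sum_le_sum_of_subset_of_nonneg
    · intro j hj
      rw [Finset.mem_insert, Finset.mem_Icc] at hj
      rw [Finset.mem_range]
      omega
    · intro j _ _
      exact h1.nonneg j
  unfold EE
  linarith

/-- the bound of the sums in `YY` -/
lemma zb (e k : ℕ) (t z A : ℝ) (g : PowerSeries ℝ) (ht : 0 < t) (hz : 0 < z) (h : MR z g A) :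
    ∑ j ∈ range (k + 1), (e.choose (k - j + 1) : ℝ) * t ^ (k - j) * coeff j g ≤
      t⁻¹ * (z ^ (k + 1))⁻¹ * (1 + t * z) ^ e * A := by
  have h1 : ∀ m : ℕ, (e.choose m : ℝ) * (t * z) ^ m ≤ (1 + t * z) ^ e := by
    intro m
    rcases lt_or_ge e m with hm | hm
    · rw [Nat.choose_eq_zero_of_lt hm]
      simp only [Nat.cast_zero, zero_mul]
      positivity
    · rw [add_comm, add_pow]
      have := Finset.single_le_sum (f := fun m => (t * z) ^ m * 1 ^ (e - m) * (e.choose m : ℝ))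
        (s := range (e + 1)) (fun i _ => by positivity) (Finset.mem_range.mpr (Nat.lt_succ_of_le hm))
      simp only [one_pow, mul_one] at this ⊢
      linarith
  calc ∑ j ∈ range (k + 1), (e.choose (k - j + 1) : ℝ) * t ^ (k - j) * coeff j g
      = ∑ j ∈ range (k + 1), t⁻¹ * (z ^ (k + 1))⁻¹ *
          (((e.choose (k - j + 1) : ℝ) * (t * z) ^ (k - j + 1)) * (coeff j g * z ^ j)) := by
        apply Finset.sum_congr rfl
        intro j hj
        rw [Finset.mem_range] at hj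
        have e1 : z ^ (k + 1) = z ^ (k - j + 1) * z ^ j := by rw [← pow_add]; congr 1; omega
        rw [e1, mul_pow, pow_succ t]
        field_simp
    _ ≤ ∑ j ∈ range (k + 1), t⁻¹ * (z ^ (k + 1))⁻¹ *
          ((1 + t * z) ^ e * (coeff j g * z ^ j)) := by
        apply Finset.sum_le_sum
        intro j _
        apply mul_le_mul_of_nonneg_left _ (by positivity)
        exact mul_le_mul_of_nonneg_right (h1 _) (mul_nonneg (h.nonneg j) (by positivity))
    _ = t⁻¹ * (z ^ (k + 1))⁻¹ * (1 + t * z) ^ e * ∑ j ∈ range (k + 1), coeff j g * z ^ j := by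
        rw [Finset.mul_sum]
        apply Finset.sum_congr rfl
        intro j _
        ring
    _ ≤ _ := mul_le_mul_of_nonneg_left (h.le _) (by positivity)

/-- `YY` as two sums -/
lemma YY_le (L k : ℕ) (t : ℝ) (ht : 0 < t) (ht2 : t ≤ 1 / 4) :
    YY L k t ≤ ((1 - t) ^ (L + 2))⁻¹ *
      (∑ j ∈ range (k + 1), ((L + 2).choose (k - j + 1) : ℝ) * t ^ (k - j) * coeff j (G0 (L - 1) k t) +
        t * ∑ j ∈ range (k + 1), ((L + 2).choose (k - j + 1) : ℝ) * t ^ (k - j) *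
          coeff j (G1 (L - 1) k t)) := by
  have h0 : t * 1 ^ 2 * (t * 1) / (1 - t * 1) < 1 := by
    simp only [one_pow, mul_one]
    rw [div_lt_one (by linarith)]
    nlinarith
  have h1 := G0_MR (L - 1) k t 1 ht.le zero_le_one (by linarith)
  unfold YY
  apply mul_le_mul_of_nonneg_left
  · rw [Finset.mul_sum, ← Finset.sum_add_distrib]
    apply Finset.sum_le_sum
    intro j _
    have h2 : 0 ≤ coeff j (G0 (L - 1) k t) := h1.nonneg j
    have h3 : 0 ≤ ((L + 2).choose (k - j + 1) : ℝ) * t ^ (k - j) := by positivity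
    have h4 : coeff j (G0 (L - 1) k t) + t * (coeff j (G1 (L - 1) k t) - coeff j (G0 (L - 1) k t)) ≤
        coeff j (G0 (L - 1) k t) + t * coeff j (G1 (L - 1) k t) := by nlinarith
    have h5 := mul_le_mul_of_nonneg_left h4 h3
    linarith
  · have : 0 < 1 - t := by linarith
    positivity

/-! ### the parameters -/

/-- the relation between `l = log n` and `n` -/
lemma l_bound (n : ℕ) (hn : 1300 ≤ n) : 1300 * (Nat.log 2 n - 1) ^ 4 ≤ 6561 * n := by
  have h1 : ∀ k : ℕ, 1300 * (k + 10) ^ 4 ≤ 6561 * 2 ^ (k + 11) := by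
    intro k
    induction k with
    | zero => norm_num
    | succ k ih =>
      have h2 : (k + 1 + 10) ^ 4 ≤ 2 * (k + 10) ^ 4 := by
        nlinarith [sq_nonneg ((k : ℤ)), Nat.zero_le (k ^ 4), Nat.zero_le (k ^ 3),
          Nat.zero_le (k ^ 2), Nat.zero_le k]
      rw [show k + 1 + 11 = (k + 11) + 1 by ring, pow_succ 2]
      omega
  rcases lt_or_ge n 2048 with h | h
  · have h2 : Nat.log 2 n < 11 := Nat.log_lt_of_lt_pow (by omega) (by norm_num; exact h)
    have h3 : (Nat.log 2 n - 1) ^ 4 ≤ 9 ^ 4 := Nat.pow_le_pow_left (by omega) 4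
    omega
  · have h2 : 11 ≤ Nat.log 2 n := Nat.le_log_of_pow_le (by norm_num) (by norm_num; exact h)
    have h3 := h1 (Nat.log 2 n - 11)
    have h4 : 2 ^ Nat.log 2 n ≤ n := Nat.pow_log_le_self 2 (by omega)
    rw [show Nat.log 2 n - 11 + 11 = Nat.log 2 n by omega,
      show Nat.log 2 n - 11 + 10 = Nat.log 2 n - 1 by omega] at h3
    omega

/-- the parameter `θ = (1300 / n) ^ (1 / 4)` -/
lemma exists_theta (n : ℕ) (hn : 1300 ≤ n) : ∃ θ : ℝ, 0 < θ ∧ θ ≤ 1 ∧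
    ((Nat.log 2 n : ℝ) - 1) * θ ≤ 9 ∧ ∀ c : ℝ, c / √(n : ℝ) = c / √1300 * θ ^ 2 := by
  have hn0 : (0 : ℝ) < n := by
    have : 0 < n := by omega
    exact_mod_cast this
  have hn1 : (1300 : ℝ) ≤ n := by exact_mod_cast hn
  refine ⟨√(√(1300 / n)), by positivity, ?_, ?_, ?_⟩
  · apply Real.sqrt_le_iff.mpr
    refine ⟨zero_le_one, ?_⟩
    rw [one_pow]
    apply Real.sqrt_le_iff.mpr
    refine ⟨zero_le_one, ?_⟩
    rw [one_pow, div_le_one hn0]
    exact hn1
  · have h1 := l_bound n hn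
    have h2 : 1 ≤ Nat.log 2 n := by
      have : 10 ≤ Nat.log 2 n := Nat.le_log_of_pow_le (by norm_num) (by norm_num; omega)
      omega
    have h3 : (1300 : ℝ) * ((Nat.log 2 n : ℝ) - 1) ^ 4 ≤ 6561 * n := by
      have h4 : ((Nat.log 2 n - 1 : ℕ) : ℝ) = (Nat.log 2 n : ℝ) - 1 := by
        rw [Nat.cast_sub h2]; simp
      rw [← h4]
      exact_mod_cast h1
    have h5 : (0 : ℝ) ≤ (Nat.log 2 n : ℝ) - 1 := by
      have : (1 : ℝ) ≤ Nat.log 2 n := by exact_mod_cast h2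
      linarith
    have h6 : (((Nat.log 2 n : ℝ) - 1) * √(√(1300 / n))) ^ 4 ≤ 9 ^ 4 := by
      have h7 : √(√(1300 / (n : ℝ))) ^ 4 = 1300 / n := by
        rw [show √(√(1300 / (n : ℝ))) ^ 4 = (√(√(1300 / (n : ℝ))) ^ 2) ^ 2 by ring,
          Real.sq_sqrt (Real.sqrt_nonneg _), Real.sq_sqrt (by positivity)]
      rw [mul_pow, h7, mul_div_assoc', div_le_iff₀ hn0]
      linarith
    exact le_of_pow_le_pow_left₀ (by norm_num) (by norm_num) h6
  · intro c
    rw [Real.sq_sqrt (Real.sqrt_nonneg _), Real.sqrt_div (by norm_num)]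
    have h1 : √(1300 : ℝ) ≠ 0 := by positivity
    have h2 : √(n : ℝ) ≠ 0 := by positivity
    field_simp

/-! ### coefficients up to `X ^ 5` -/

structure Co (F : PowerSeries ℝ) (a2 a3 a4 a5 : ℝ) : Prop where
  c0 : coeff 0 F = 1
  c1 : coeff 1 F = 0
  c2 : coeff 2 F = a2
  c3 : coeff 3 F = a3
  c4 : coeff 4 F = a4
  c5 : coeff 5 F = a5

lemma coeff_mul_range (F G : PowerSeries ℝ) (n : ℕ) :
    coeff n (F * G) = ∑ i ∈ range (n + 1), coeff i F * coeff (n - i) G := by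
  rw [PowerSeries.coeff_mul, Finset.Nat.sum_antidiagonal_eq_sum_range_succ
    (fun i j => coeff i F * coeff j G)]

lemma Co.mul {F G : PowerSeries ℝ} {a2 a3 a4 a5 b2 b3 b4 b5 : ℝ} (hF : Co F a2 a3 a4 a5)
    (hG : Co G b2 b3 b4 b5) :
    Co (F * G) (a2 + b2) (a3 + b3) (a4 + b4 + a2 * b2) (a5 + b5 + a2 * b3 + a3 * b2) := by
  obtain ⟨f0, f1, f2, f3, f4, f5⟩ := hF
  obtain ⟨g0, g1, g2, g3, g4, g5⟩ := hG
  constructor
  · rw [coeff_mul_range]
    simp only [Finset.sum_range_succ, Finset.sum_range_zero, Nat.reduceSub, f0, g0]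
    ring
  · rw [coeff_mul_range]
    simp only [Finset.sum_range_succ, Finset.sum_range_zero, Nat.reduceSub, f0, f1, g0, g1]
    ring
  · rw [coeff_mul_range]
    simp only [Finset.sum_range_succ, Finset.sum_range_zero, Nat.reduceSub, f0, f1, f2, g0, g1, g2]
    ring
  · rw [coeff_mul_range]
    simp only [Finset.sum_range_succ, Finset.sum_range_zero, Nat.reduceSub, f0, f1, f2, f3,
      g0, g1, g2, g3]
    ring
  · rw [coeff_mul_range]
    simp only [Finset.sum_range_succ, Finset.sum_range_zero, Nat.reduceSub, f0, f1, f2, f3, f4,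
      g0, g1, g2, g3, g4]
    ring
  · rw [coeff_mul_range]
    simp only [Finset.sum_range_succ, Finset.sum_range_zero, Nat.reduceSub, f0, f1, f2, f3, f4, f5,
      g0, g1, g2, g3, g4, g5]
    ring

lemma Co.one : Co 1 0 0 0 0 := by
  constructor <;> rw [PowerSeries.coeff_one] <;> norm_num

lemma Co.cast {F : PowerSeries ℝ} {a2 a3 a4 a5 b2 b3 b4 b5 : ℝ} (hF : Co F a2 a3 a4 a5)
    (h2 : a2 = b2) (h3 : a3 = b3) (h4 : a4 = b4) (h5 : a5 = b5) : Co F b2 b3 b4 b5 := by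
  subst h2 h3 h4 h5
  exact hF

lemma Co.pow {F : PowerSeries ℝ} {a2 a3 a4 a5 : ℝ} (hF : Co F a2 a3 a4 a5) (l : ℕ) :
    Co (F ^ l) (l * a2) (l * a3) (l * a4 + l * (l - 1) / 2 * a2 ^ 2)
      (l * a5 + l * (l - 1) * (a2 * a3)) := by
  induction l with
  | zero => rw [pow_zero]; exact Co.one.cast (by simp) (by simp) (by simp) (by simp)
  | succ l ih =>
    rw [pow_succ]
    apply (ih.mul hF).cast
    · push_cast; ring
    · push_cast; ring
    · push_cast; ring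
    · push_cast; ring

lemma coeff_lin (u : ℝ) (i n : ℕ) : coeff n (1 + PowerSeries.C u * X ^ i : PowerSeries ℝ) =
    (if n = 0 then 1 else 0) + (if n = i then u else 0) := by
  rw [map_add, PowerSeries.coeff_one, PowerSeries.coeff_C_mul, PowerSeries.coeff_X_pow]
  congr 1
  split_ifs <;> simp

lemma lin2 (u : ℝ) : Co (1 + PowerSeries.C u * X ^ 2) u 0 0 0 := by
  constructor <;> rw [coeff_lin] <;> norm_num
lemma lin3 (u : ℝ) : Co (1 + PowerSeries.C u * X ^ 3) 0 u 0 0 := by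
  constructor <;> rw [coeff_lin] <;> norm_num
lemma lin4 (u : ℝ) : Co (1 + PowerSeries.C u * X ^ 4) 0 0 u 0 := by
  constructor <;> rw [coeff_lin] <;> norm_num
lemma lin5 (u : ℝ) : Co (1 + PowerSeries.C u * X ^ 5) 0 0 0 u := by
  constructor <;> rw [coeff_lin] <;> norm_num

lemma gi_small (v : ℝ) (i n : ℕ) (hi : 1 ≤ i) (hn : 1 ≤ n) (h : n < i) : coeff n (gi v i) = 0 := by
  rw [gi_rec v i n hi, if_neg (by omega), if_neg (by omega), add_zero]

lemma gi_step (v : ℝ) (i n : ℕ) (hi : 1 ≤ i) (h : i ≤ n) :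
    coeff n (gi v i) = v * coeff (n - i) (gi v i) := by
  rw [gi_rec v i n hi, if_neg (by omega), if_pos h, zero_add]

lemma gi2 (v : ℝ) : Co (gi v 2) v 0 (v ^ 2) 0 := by
  have h0 := gi_zero v 2 (by norm_num)
  have h1 := gi_small v 2 1 (by norm_num) (by norm_num) (by norm_num)
  have h2 := gi_step v 2 2 (by norm_num) (by norm_num)
  have h3 := gi_step v 2 3 (by norm_num) (by norm_num)
  have h4 := gi_step v 2 4 (by norm_num) (by norm_num)
  have h5 := gi_step v 2 5 (by norm_num) (by norm_num)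
  norm_num only at h2 h3 h4 h5
  rw [h0] at h2
  rw [h1] at h3
  rw [h2] at h4
  rw [h3] at h5
  exact ⟨h0, h1, by rw [h2]; ring, by rw [h3]; ring, by rw [h4]; ring, by rw [h5]; ring⟩

lemma gi3 (v : ℝ) : Co (gi v 3) 0 v 0 0 := by
  have h0 := gi_zero v 3 (by norm_num)
  have h1 := gi_small v 3 1 (by norm_num) (by norm_num) (by norm_num)
  have h2 := gi_small v 3 2 (by norm_num) (by norm_num) (by norm_num)
  have h3 := gi_step v 3 3 (by norm_num) (by norm_num)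
  have h4 := gi_step v 3 4 (by norm_num) (by norm_num)
  have h5 := gi_step v 3 5 (by norm_num) (by norm_num)
  norm_num only at h3 h4 h5
  rw [h0] at h3
  rw [h1] at h4
  rw [h2] at h5
  exact ⟨h0, h1, h2, by rw [h3]; ring, by rw [h4]; ring, by rw [h5]; ring⟩

lemma gi4 (v : ℝ) : Co (gi v 4) 0 0 v 0 := by
  have h0 := gi_zero v 4 (by norm_num)
  have h1 := gi_small v 4 1 (by norm_num) (by norm_num) (by norm_num)
  have h2 := gi_small v 4 2 (by norm_num) (by norm_num) (by norm_num)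
  have h3 := gi_small v 4 3 (by norm_num) (by norm_num) (by norm_num)
  have h4 := gi_step v 4 4 (by norm_num) (by norm_num)
  have h5 := gi_step v 4 5 (by norm_num) (by norm_num)
  norm_num only at h4 h5
  rw [h0] at h4
  rw [h1] at h5
  exact ⟨h0, h1, h2, h3, by rw [h4]; ring, by rw [h5]; ring⟩

lemma gi5 (v : ℝ) : Co (gi v 5) 0 0 0 v := by
  have h0 := gi_zero v 5 (by norm_num)
  have h1 := gi_small v 5 1 (by norm_num) (by norm_num) (by norm_num)
  have h2 := gi_small v 5 2 (by norm_num) (by norm_num) (by norm_num)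
  have h3 := gi_small v 5 3 (by norm_num) (by norm_num) (by norm_num)
  have h4 := gi_small v 5 4 (by norm_num) (by norm_num) (by norm_num)
  have h5 := gi_step v 5 5 (by norm_num) (by norm_num)
  norm_num only at h5
  rw [h0] at h5
  exact ⟨h0, h1, h2, h3, h4, by rw [h5]; ring⟩

lemma G0_three (l : ℕ) (t : ℝ) : Co (G0 l 3 t) (l * t ^ 2) (l * t ^ 3)
    (l * (l - 1) / 2 * t ^ 4) (l ^ 2 * t ^ 5) := by
  have h : G0 l 3 t = (1 + PowerSeries.C (t ^ 2) * X ^ 2) ^ l *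
      (1 + PowerSeries.C (t ^ 3) * X ^ 3) ^ l := by
    unfold G0
    rw [Finset.prod_Icc_succ_top (by norm_num), Finset.Icc_self, Finset.prod_singleton]
  rw [h]
  exact (((lin2 (t ^ 2)).pow l).mul ((lin3 (t ^ 3)).pow l)).cast (by ring) (by ring) (by ring)
    (by ring)

lemma G0_four (l : ℕ) (t : ℝ) : Co (G0 l 4 t) (l * t ^ 2) (l * t ^ 3)
    (l * (l - 1) / 2 * t ^ 4 + l * t ^ 4) (l ^ 2 * t ^ 5) := by
  have h : G0 l 4 t = G0 l 3 t * (1 + PowerSeries.C (t ^ 4) * X ^ 4) ^ l := by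
    unfold G0
    rw [Finset.prod_Icc_succ_top (by norm_num)]
  rw [h]
  exact ((G0_three l t).mul ((lin4 (t ^ 4)).pow l)).cast (by ring) (by ring) (by ring)
    (by ring)

lemma G0_five (l : ℕ) (t : ℝ) : Co (G0 l 5 t) (l * t ^ 2) (l * t ^ 3)
    (l * (l - 1) / 2 * t ^ 4 + l * t ^ 4) (l ^ 2 * t ^ 5 + l * t ^ 5) := by
  have h : G0 l 5 t = G0 l 4 t * (1 + PowerSeries.C (t ^ 5) * X ^ 5) ^ l := by
    unfold G0
    rw [Finset.prod_Icc_succ_top (by norm_num)]
  rw [h]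
  exact ((G0_four l t).mul ((lin5 (t ^ 5)).pow l)).cast (by ring) (by ring) (by ring)
    (by ring)

lemma G1_three (l : ℕ) (t : ℝ) : Co (G1 l 3 t) (l * t ^ 2 + t) (l * t ^ 3 + t ^ 2)
    (l * (l - 1) / 2 * t ^ 4 + t ^ 2 + l * t ^ 3) ((l * t ^ 2 + t) * (l * t ^ 3 + t ^ 2)) := by
  have h : G1 l 3 t = G0 l 3 t * (gi (t ^ 1) 2 * gi (t ^ 2) 3) := by
    rw [G1_eq]
    rw [Finset.prod_Icc_succ_top (by norm_num), Finset.Icc_self, Finset.prod_singleton]
  rw [h, pow_one]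
  exact ((G0_three l t).mul ((gi2 t).mul (gi3 (t ^ 2)))).cast (by ring) (by ring) (by ring)
    (by ring)

lemma G1_four (l : ℕ) (t : ℝ) : Co (G1 l 4 t) (l * t ^ 2 + t) (l * t ^ 3 + t ^ 2)
    (l * (l - 1) / 2 * t ^ 4 + t ^ 2 + l * t ^ 3 + l * t ^ 4 + t ^ 3)
    ((l * t ^ 2 + t) * (l * t ^ 3 + t ^ 2)) := by
  have h : G1 l 4 t = G1 l 3 t * ((1 + PowerSeries.C (t ^ 4) * X ^ 4) ^ l * gi (t ^ 3) 4) := by
    unfold G1 gi
    rw [Finset.prod_Icc_succ_top (by norm_num)]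
  rw [h]
  exact ((G1_three l t).mul (((lin4 (t ^ 4)).pow l).mul (gi4 (t ^ 3)))).cast (by ring) (by ring)
    (by ring) (by ring)

lemma G1_five (l : ℕ) (t : ℝ) : Co (G1 l 5 t) (l * t ^ 2 + t) (l * t ^ 3 + t ^ 2)
    (l * (l - 1) / 2 * t ^ 4 + t ^ 2 + l * t ^ 3 + l * t ^ 4 + t ^ 3)
    ((l * t ^ 2 + t) * (l * t ^ 3 + t ^ 2) + l * t ^ 5 + t ^ 4) := by
  have h : G1 l 5 t = G1 l 4 t * ((1 + PowerSeries.C (t ^ 5) * X ^ 5) ^ l * gi (t ^ 4) 5) := by
    unfold G1 gi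
    rw [Finset.prod_Icc_succ_top (by norm_num)]
  rw [h]
  exact ((G1_four l t).mul (((lin5 (t ^ 5)).pow l).mul (gi5 (t ^ 4)))).cast (by ring) (by ring)
    (by ring) (by ring)

/-- binomial coefficients times powers of `θ` -/
lemma ch (l : ℕ) (θ : ℝ) (hl : 3 ≤ l) (h0 : 0 < θ) (h1 : θ ≤ 1) (h : ((l : ℝ) - 1) * θ ≤ 9) :
    ((l + 3 : ℕ).choose 1 : ℝ) * θ ≤ 13 ∧ ((l + 3 : ℕ).choose 2 : ℝ) * θ ^ 2 ≤ 78 ∧
    ((l + 3 : ℕ).choose 3 : ℝ) * θ ^ 3 ≤ 286 ∧ ((l + 3 : ℕ).choose 4 : ℝ) * θ ^ 4 ≤ 715 ∧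
    ((l + 3 : ℕ).choose 5 : ℝ) * θ ^ 5 ≤ 1287 ∧ ((l + 3 : ℕ).choose 6 : ℝ) * θ ^ 6 ≤ 1930.5 := by
  have hc : ∀ m : ℕ, m ≤ 5 → ((l + 3 : ℕ).choose (m + 1) : ℝ) * (m + 1) =
      ((l + 3 : ℕ).choose m : ℝ) * ((l : ℝ) + 3 - m) := by
    intro m hm
    have h2 := Nat.choose_succ_right_eq (l + 3) m
    have h3 : ((l + 3 - m : ℕ) : ℝ) = (l : ℝ) + 3 - m := by
      rw [Nat.cast_sub (by omega)]
      push_cast
      ring
    rw [← h3]
    exact_mod_cast h2
  have c0 := hc 0 (by norm_num)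
  have c1 := hc 1 (by norm_num)
  have c2 := hc 2 (by norm_num)
  have c3 := hc 3 (by norm_num)
  have c4 := hc 4 (by norm_num)
  have c5 := hc 5 (by norm_num)
  norm_num at c0 c1 c2 c3 c4 c5
  have hpos : ∀ m : ℕ, (0 : ℝ) ≤ ((l + 3 : ℕ).choose m : ℝ) := fun m => Nat.cast_nonneg _
  have p1 := hpos 1
  have p2 := hpos 2
  have p3 := hpos 3
  have p4 := hpos 4
  have p5 := hpos 5
  have hl' : (3 : ℝ) ≤ l := by exact_mod_cast hl
  have b1 : ((l + 3 : ℕ).choose 1 : ℝ) * θ ≤ 13 := by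
    rw [Nat.choose_one_right]
    push_cast
    linarith
  have b2 : ((l + 3 : ℕ).choose 2 : ℝ) * θ ^ 2 ≤ 78 := by
    have e : ((l + 3 : ℕ).choose 2 : ℝ) * θ ^ 2 =
      (((l + 3 : ℕ).choose 1 : ℝ) * θ) * (((l : ℝ) + 3 - 1) * θ) / 2 := by
      rw [Nat.choose_one_right]
      push_cast
      linear_combination (θ ^ 2 / 2) * c1
    have f : ((l : ℝ) + 3 - 1) * θ ≤ 12 := by linarith
    have g := mul_le_mul b1 f (by nlinarith) (by norm_num)
    rw [e]
    linarith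
  have b3 : ((l + 3 : ℕ).choose 3 : ℝ) * θ ^ 3 ≤ 286 := by
    have e : ((l + 3 : ℕ).choose 3 : ℝ) * θ ^ 3 =
      (((l + 3 : ℕ).choose 2 : ℝ) * θ ^ 2) * (((l : ℝ) + 3 - 2) * θ) / 3 := by
      linear_combination (θ ^ 3 / 3) * c2
    have f : ((l : ℝ) + 3 - 2) * θ ≤ 11 := by linarith
    have g := mul_le_mul b2 f (by nlinarith) (by norm_num)
    rw [e]
    linarith
  have b4 : ((l + 3 : ℕ).choose 4 : ℝ) * θ ^ 4 ≤ 715 := by
    have e : ((l + 3 : ℕ).choose 4 : ℝ) * θ ^ 4 =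
      (((l + 3 : ℕ).choose 3 : ℝ) * θ ^ 3) * (((l : ℝ) + 3 - 3) * θ) / 4 := by
      linear_combination (θ ^ 4 / 4) * c3
    have f : ((l : ℝ) + 3 - 3) * θ ≤ 10 := by linarith
    have g := mul_le_mul b3 f (by nlinarith) (by norm_num)
    rw [e]
    linarith
  have b5 : ((l + 3 : ℕ).choose 5 : ℝ) * θ ^ 5 ≤ 1287 := by
    have e : ((l + 3 : ℕ).choose 5 : ℝ) * θ ^ 5 =
      (((l + 3 : ℕ).choose 4 : ℝ) * θ ^ 4) * (((l : ℝ) + 3 - 4) * θ) / 5 := by
      linear_combination (θ ^ 5 / 5) * c4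
    have f : ((l : ℝ) + 3 - 4) * θ ≤ 9 := by linarith
    have g := mul_le_mul b4 f (by nlinarith) (by norm_num)
    rw [e]
    linarith
  have b6 : ((l + 3 : ℕ).choose 6 : ℝ) * θ ^ 6 ≤ 1930.5 := by
    have e : ((l + 3 : ℕ).choose 6 : ℝ) * θ ^ 6 =
      (((l + 3 : ℕ).choose 5 : ℝ) * θ ^ 5) * (((l : ℝ) + 3 - 5) * θ) / 6 := by
      linear_combination (θ ^ 6 / 6) * c5
    have f : ((l : ℝ) + 3 - 5) * θ ≤ 9 := by linarith
    have g := mul_le_mul b5 f (by nlinarith) (by norm_num)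
    rw [e]
    linarith
  exact ⟨b1, b2, b3, b4, b5, b6⟩

/-- the prefactor -/
lemma pre (e : ℕ) (t T : ℝ) (ht : 0 < t) (htT : t ≤ T) (hT : T < 1) (he : (e : ℝ) * t ≤ 13 * T) :
    ((1 - t) ^ e)⁻¹ ≤ Real.exp (13 * T / (1 - T)) := by
  have h1 : 0 < 1 - t := by linarith
  have h2 : 0 < 1 - T := by linarith
  have h3 : (1 - t)⁻¹ ≤ Real.exp (t / (1 - t)) := by
    have := Real.add_one_le_exp (t / (1 - t))
    have e1 : t / (1 - t) + 1 = (1 - t)⁻¹ := by
      field_simp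
      ring
    rwa [e1] at this
  calc ((1 - t) ^ e)⁻¹ = ((1 - t)⁻¹) ^ e := by rw [inv_pow]
    _ ≤ (Real.exp (t / (1 - t))) ^ e := pow_le_pow_left₀ (by positivity) h3 e
    _ = Real.exp (e * (t / (1 - t))) := (Real.exp_nat_mul _ _).symm
    _ ≤ _ := by
        apply Real.exp_le_exp.mpr
        rw [← mul_div_assoc]
        apply div_le_div₀ _ he h2 (by linarith)
        nlinarith

lemma Y3 (l : ℕ) (t θ T : ℝ) (hl : 3 ≤ l) (h0 : 0 < θ) (h1 : θ ≤ 1) (h : ((l : ℝ) - 1) * θ ≤ 9)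
    (hT : 0 ≤ T) (ht : t = T * θ ^ 2) :
    ∑ j ∈ range (3 + 1), ((l + 3).choose (3 - j + 1) : ℝ) * t ^ (3 - j) *
      (coeff j (G0 l 3 t) + t * (coeff j (G1 l 3 t) - coeff j (G0 l 3 t))) ≤ 1716 * T ^ 3 := by
  obtain ⟨f0, f1, f2, f3, -, -⟩ := G0_three l t
  obtain ⟨g0, g1, g2, g3, -, -⟩ := G1_three l t
  obtain ⟨b1, b2, b3, b4, b5, b6⟩ := ch l θ hl h0 h1 h
  simp only [Finset.sum_range_succ, Finset.sum_range_zero, Nat.reduceSub, Nat.reduceAdd, f0, f1,
    f2, f3, g0, g1, g2, g3]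
  have hl1 : ((l : ℝ) + 1) * θ ≤ 11 := by linarith
  have hl' : (0 : ℝ) ≤ l := Nat.cast_nonneg l
  have e4 : ((l + 3).choose 4 : ℝ) * t ^ 3 ≤ 715 * T ^ 3 := by
    have : ((l + 3).choose 4 : ℝ) * t ^ 3 = (((l + 3).choose 4 : ℝ) * θ ^ 4) * θ ^ 2 * T ^ 3 := by
      rw [ht]; ring
    rw [this]
    calc (((l + 3).choose 4 : ℝ) * θ ^ 4) * θ ^ 2 * T ^ 3 ≤ 715 * 1 ^ 2 * T ^ 3 := by gcongr
      _ = 715 * T ^ 3 := by ring
  have e2 : ((l + 3).choose 2 : ℝ) * t * ((l + 1) * t ^ 2) ≤ 858 * T ^ 3 := by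
    have : ((l + 3).choose 2 : ℝ) * t * ((l + 1) * t ^ 2) =
        (((l + 3).choose 2 : ℝ) * θ ^ 2) * (((l : ℝ) + 1) * θ) * θ ^ 3 * T ^ 3 := by
      rw [ht]; ring
    rw [this]
    calc (((l + 3).choose 2 : ℝ) * θ ^ 2) * (((l : ℝ) + 1) * θ) * θ ^ 3 * T ^ 3 ≤
          78 * 11 * 1 ^ 3 * T ^ 3 := by gcongr
      _ = 858 * T ^ 3 := by ring
  have e1 : ((l + 3).choose 1 : ℝ) * ((l + 1) * t ^ 3) ≤ 143 * T ^ 3 := by
    have : ((l + 3).choose 1 : ℝ) * ((l + 1) * t ^ 3) =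
        (((l + 3).choose 1 : ℝ) * θ) * (((l : ℝ) + 1) * θ) * θ ^ 4 * T ^ 3 := by
      rw [ht]; ring
    rw [this]
    calc (((l + 3).choose 1 : ℝ) * θ) * (((l : ℝ) + 1) * θ) * θ ^ 4 * T ^ 3 ≤
          13 * 11 * 1 ^ 4 * T ^ 3 := by gcongr
      _ = 143 * T ^ 3 := by ring
  calc _ = ((l + 3).choose 4 : ℝ) * t ^ 3 + ((l + 3).choose 2 : ℝ) * t * ((l + 1) * t ^ 2) +
        ((l + 3).choose 1 : ℝ) * ((l + 1) * t ^ 3) := by ring
    _ ≤ _ := by linarith

lemma Y4 (l : ℕ) (t θ T : ℝ) (hl : 3 ≤ l) (h0 : 0 < θ) (h1 : θ ≤ 1) (h : ((l : ℝ) - 1) * θ ≤ 9)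
    (hT : 0 ≤ T) (ht : t = T * θ ^ 2) :
    ∑ j ∈ range (4 + 1), ((l + 3).choose (4 - j + 1) : ℝ) * t ^ (4 - j) *
      (coeff j (G0 l 4 t) + t * (coeff j (G1 l 4 t) - coeff j (G0 l 4 t))) ≤
      6214 * T ^ 4 + 13 * T ^ 3 := by
  obtain ⟨f0, f1, f2, f3, f4, -⟩ := G0_four l t
  obtain ⟨g0, g1, g2, g3, g4, -⟩ := G1_four l t
  obtain ⟨b1, b2, b3, b4, b5, b6⟩ := ch l θ hl h0 h1 h
  simp only [Finset.sum_range_succ, Finset.sum_range_zero, Nat.reduceSub, Nat.reduceAdd, f0, f1,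
    f2, f3, f4, g0, g1, g2, g3, g4]
  have hl0 : (l : ℝ) * θ ≤ 10 := by linarith
  have hl1 : ((l : ℝ) + 1) * θ ≤ 11 := by linarith
  have hl' : (0 : ℝ) ≤ l := Nat.cast_nonneg l
  have hq : ((l : ℝ) * (l - 1) / 2 + 2 * l + 1) * θ ^ 2 ≤ 71 := by
    have e : ((l : ℝ) * (l - 1) / 2 + 2 * l + 1) * θ ^ 2 ≤
        (l * θ) * (l * θ) / 2 + 2 * (l * θ) * θ + θ ^ 2 := by nlinarith [sq_nonneg θ]
    have e' : (l * θ) * (l * θ) / 2 + 2 * (l * θ) * θ + θ ^ 2 ≤ 10 * 10 / 2 + 2 * 10 * 1 + 1 ^ 2 := by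
      gcongr
    linarith
  have hq0 : 0 ≤ (l : ℝ) * (l - 1) / 2 + 2 * l + 1 := by nlinarith
  have e5 : ((l + 3).choose 5 : ℝ) * t ^ 4 ≤ 1287 * T ^ 4 := by
    have : ((l + 3).choose 5 : ℝ) * t ^ 4 = (((l + 3).choose 5 : ℝ) * θ ^ 5) * θ ^ 3 * T ^ 4 := by
      rw [ht]; ring
    rw [this]
    calc (((l + 3).choose 5 : ℝ) * θ ^ 5) * θ ^ 3 * T ^ 4 ≤ 1287 * 1 ^ 3 * T ^ 4 := by gcongr
      _ = 1287 * T ^ 4 := by ring
  have e3 : ((l + 3).choose 3 : ℝ) * t ^ 2 * ((l + 1) * t ^ 2) ≤ 3146 * T ^ 4 := by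
    have : ((l + 3).choose 3 : ℝ) * t ^ 2 * ((l + 1) * t ^ 2) =
        (((l + 3).choose 3 : ℝ) * θ ^ 3) * (((l : ℝ) + 1) * θ) * θ ^ 4 * T ^ 4 := by
      rw [ht]; ring
    rw [this]
    calc (((l + 3).choose 3 : ℝ) * θ ^ 3) * (((l : ℝ) + 1) * θ) * θ ^ 4 * T ^ 4 ≤
          286 * 11 * 1 ^ 4 * T ^ 4 := by gcongr
      _ = 3146 * T ^ 4 := by ring
  have e2 : ((l + 3).choose 2 : ℝ) * t * ((l + 1) * t ^ 3) ≤ 858 * T ^ 4 := by
    have : ((l + 3).choose 2 : ℝ) * t * ((l + 1) * t ^ 3) =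
        (((l + 3).choose 2 : ℝ) * θ ^ 2) * (((l : ℝ) + 1) * θ) * θ ^ 5 * T ^ 4 := by
      rw [ht]; ring
    rw [this]
    calc (((l + 3).choose 2 : ℝ) * θ ^ 2) * (((l : ℝ) + 1) * θ) * θ ^ 5 * T ^ 4 ≤
          78 * 11 * 1 ^ 5 * T ^ 4 := by gcongr
      _ = 858 * T ^ 4 := by ring
  have e1 : ((l + 3).choose 1 : ℝ) * (((l : ℝ) * (l - 1) / 2 + 2 * l + 1) * t ^ 4) ≤
      923 * T ^ 4 := by
    have : ((l + 3).choose 1 : ℝ) * (((l : ℝ) * (l - 1) / 2 + 2 * l + 1) * t ^ 4) =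
        (((l + 3).choose 1 : ℝ) * θ) * (((l : ℝ) * (l - 1) / 2 + 2 * l + 1) * θ ^ 2) * θ ^ 5 *
          T ^ 4 := by
      rw [ht]; ring
    rw [this]
    calc (((l + 3).choose 1 : ℝ) * θ) * (((l : ℝ) * (l - 1) / 2 + 2 * l + 1) * θ ^ 2) * θ ^ 5 *
          T ^ 4 ≤ 13 * 71 * 1 ^ 5 * T ^ 4 := by gcongr
      _ = 923 * T ^ 4 := by ring
  have e1' : ((l + 3).choose 1 : ℝ) * t ^ 3 ≤ 13 * T ^ 3 := by
    have : ((l + 3).choose 1 : ℝ) * t ^ 3 = (((l + 3).choose 1 : ℝ) * θ) * θ ^ 5 * T ^ 3 := by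
      rw [ht]; ring
    rw [this]
    calc (((l + 3).choose 1 : ℝ) * θ) * θ ^ 5 * T ^ 3 ≤ 13 * 1 ^ 5 * T ^ 3 := by gcongr
      _ = 13 * T ^ 3 := by ring
  calc _ = ((l + 3).choose 5 : ℝ) * t ^ 4 + ((l + 3).choose 3 : ℝ) * t ^ 2 * ((l + 1) * t ^ 2) +
        ((l + 3).choose 2 : ℝ) * t * ((l + 1) * t ^ 3) +
        ((l + 3).choose 1 : ℝ) * (((l : ℝ) * (l - 1) / 2 + 2 * l + 1) * t ^ 4) +
        ((l + 3).choose 1 : ℝ) * t ^ 3 := by ring
    _ ≤ _ := by linarith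

lemma Y5 (l : ℕ) (t θ T : ℝ) (hl : 3 ≤ l) (h0 : 0 < θ) (h1 : θ ≤ 1) (h : ((l : ℝ) - 1) * θ ≤ 9)
    (hT : 0 ≤ T) (ht : t = T * θ ^ 2) :
    ∑ j ∈ range (5 + 1), ((l + 3).choose (5 - j + 1) : ℝ) * t ^ (5 - j) *
      (coeff j (G0 l 5 t) + t * (coeff j (G1 l 5 t) - coeff j (G0 l 5 t))) ≤
      20182.5 * T ^ 5 + 91 * T ^ 4 := by
  obtain ⟨f0, f1, f2, f3, f4, f5⟩ := G0_five l t
  obtain ⟨g0, g1, g2, g3, g4, g5⟩ := G1_five l t
  obtain ⟨b1, b2, b3, b4, b5, b6⟩ := ch l θ hl h0 h1 h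
  simp only [Finset.sum_range_succ, Finset.sum_range_zero, Nat.reduceSub, Nat.reduceAdd, f0, f1,
    f2, f3, f4, f5, g0, g1, g2, g3, g4, g5]
  have hl0 : (l : ℝ) * θ ≤ 10 := by linarith
  have hl1 : ((l : ℝ) + 1) * θ ≤ 11 := by linarith
  have hl' : (0 : ℝ) ≤ l := Nat.cast_nonneg l
  have hq : ((l : ℝ) * (l - 1) / 2 + 2 * l + 1) * θ ^ 2 ≤ 71 := by
    have e : ((l : ℝ) * (l - 1) / 2 + 2 * l + 1) * θ ^ 2 ≤
        (l * θ) * (l * θ) / 2 + 2 * (l * θ) * θ + θ ^ 2 := by nlinarith [sq_nonneg θ]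
    have e' : (l * θ) * (l * θ) / 2 + 2 * (l * θ) * θ + θ ^ 2 ≤ 10 * 10 / 2 + 2 * 10 * 1 + 1 ^ 2 := by
      gcongr
    linarith
  have hq0 : 0 ≤ (l : ℝ) * (l - 1) / 2 + 2 * l + 1 := by nlinarith
  have hr : ((l : ℝ) ^ 2 + 3 * l + 1) * θ ^ 2 ≤ 131 := by
    have e : ((l : ℝ) ^ 2 + 3 * l + 1) * θ ^ 2 = (l * θ) * (l * θ) + 3 * (l * θ) * θ + θ ^ 2 := by
      ring
    have e' : (l * θ) * (l * θ) + 3 * (l * θ) * θ + θ ^ 2 ≤ 10 * 10 + 3 * 10 * 1 + 1 ^ 2 := by
      gcongr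
    linarith
  have e6 : ((l + 3).choose 6 : ℝ) * t ^ 5 ≤ 1930.5 * T ^ 5 := by
    have : ((l + 3).choose 6 : ℝ) * t ^ 5 = (((l + 3).choose 6 : ℝ) * θ ^ 6) * θ ^ 4 * T ^ 5 := by
      rw [ht]; ring
    rw [this]
    calc (((l + 3).choose 6 : ℝ) * θ ^ 6) * θ ^ 4 * T ^ 5 ≤ 1930.5 * 1 ^ 4 * T ^ 5 := by gcongr
      _ = 1930.5 * T ^ 5 := by ring
  have e4 : ((l + 3).choose 4 : ℝ) * t ^ 3 * ((l + 1) * t ^ 2) ≤ 7865 * T ^ 5 := by
    have : ((l + 3).choose 4 : ℝ) * t ^ 3 * ((l + 1) * t ^ 2) =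
        (((l + 3).choose 4 : ℝ) * θ ^ 4) * (((l : ℝ) + 1) * θ) * θ ^ 5 * T ^ 5 := by
      rw [ht]; ring
    rw [this]
    calc (((l + 3).choose 4 : ℝ) * θ ^ 4) * (((l : ℝ) + 1) * θ) * θ ^ 5 * T ^ 5 ≤
          715 * 11 * 1 ^ 5 * T ^ 5 := by gcongr
      _ = 7865 * T ^ 5 := by ring
  have e3 : ((l + 3).choose 3 : ℝ) * t ^ 2 * ((l + 1) * t ^ 3) ≤ 3146 * T ^ 5 := by
    have : ((l + 3).choose 3 : ℝ) * t ^ 2 * ((l + 1) * t ^ 3) =
        (((l + 3).choose 3 : ℝ) * θ ^ 3) * (((l : ℝ) + 1) * θ) * θ ^ 6 * T ^ 5 := by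
      rw [ht]; ring
    rw [this]
    calc (((l + 3).choose 3 : ℝ) * θ ^ 3) * (((l : ℝ) + 1) * θ) * θ ^ 6 * T ^ 5 ≤
          286 * 11 * 1 ^ 6 * T ^ 5 := by gcongr
      _ = 3146 * T ^ 5 := by ring
  have e2 : ((l + 3).choose 2 : ℝ) * t * (((l : ℝ) * (l - 1) / 2 + 2 * l + 1) * t ^ 4) ≤
      5538 * T ^ 5 := by
    have : ((l + 3).choose 2 : ℝ) * t * (((l : ℝ) * (l - 1) / 2 + 2 * l + 1) * t ^ 4) =
        (((l + 3).choose 2 : ℝ) * θ ^ 2) * (((l : ℝ) * (l - 1) / 2 + 2 * l + 1) * θ ^ 2) * θ ^ 6 *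
          T ^ 5 := by
      rw [ht]; ring
    rw [this]
    calc (((l + 3).choose 2 : ℝ) * θ ^ 2) * (((l : ℝ) * (l - 1) / 2 + 2 * l + 1) * θ ^ 2) * θ ^ 6 *
          T ^ 5 ≤ 78 * 71 * 1 ^ 6 * T ^ 5 := by gcongr
      _ = 5538 * T ^ 5 := by ring
  have e2' : ((l + 3).choose 2 : ℝ) * t * t ^ 3 ≤ 78 * T ^ 4 := by
    have : ((l + 3).choose 2 : ℝ) * t * t ^ 3 = (((l + 3).choose 2 : ℝ) * θ ^ 2) * θ ^ 6 * T ^ 4 := by
      rw [ht]; ring
    rw [this]
    calc (((l + 3).choose 2 : ℝ) * θ ^ 2) * θ ^ 6 * T ^ 4 ≤ 78 * 1 ^ 6 * T ^ 4 := by gcongr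
      _ = 78 * T ^ 4 := by ring
  have e1 : ((l + 3).choose 1 : ℝ) * (((l : ℝ) ^ 2 + 3 * l + 1) * t ^ 5) ≤ 1703 * T ^ 5 := by
    have : ((l + 3).choose 1 : ℝ) * (((l : ℝ) ^ 2 + 3 * l + 1) * t ^ 5) =
        (((l + 3).choose 1 : ℝ) * θ) * (((l : ℝ) ^ 2 + 3 * l + 1) * θ ^ 2) * θ ^ 7 * T ^ 5 := by
      rw [ht]; ring
    rw [this]
    calc (((l + 3).choose 1 : ℝ) * θ) * (((l : ℝ) ^ 2 + 3 * l + 1) * θ ^ 2) * θ ^ 7 * T ^ 5 ≤
          13 * 131 * 1 ^ 7 * T ^ 5 := by gcongr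
      _ = 1703 * T ^ 5 := by ring
  have e1' : ((l + 3).choose 1 : ℝ) * t ^ 4 ≤ 13 * T ^ 4 := by
    have : ((l + 3).choose 1 : ℝ) * t ^ 4 = (((l + 3).choose 1 : ℝ) * θ) * θ ^ 7 * T ^ 4 := by
      rw [ht]; ring
    rw [this]
    calc (((l + 3).choose 1 : ℝ) * θ) * θ ^ 7 * T ^ 4 ≤ 13 * 1 ^ 7 * T ^ 4 := by gcongr
      _ = 13 * T ^ 4 := by ring
  calc _ = ((l + 3).choose 6 : ℝ) * t ^ 5 + ((l + 3).choose 4 : ℝ) * t ^ 3 * ((l + 1) * t ^ 2) +
        ((l + 3).choose 3 : ℝ) * t ^ 2 * ((l + 1) * t ^ 3) +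
        ((l + 3).choose 2 : ℝ) * t * (((l : ℝ) * (l - 1) / 2 + 2 * l + 1) * t ^ 4) +
        ((l + 3).choose 2 : ℝ) * t * t ^ 3 +
        ((l + 3).choose 1 : ℝ) * (((l : ℝ) ^ 2 + 3 * l + 1) * t ^ 5) +
        ((l + 3).choose 1 : ℝ) * t ^ 4 := by ring
    _ ≤ _ := by linarith

/-! ### the saddle point bounds -/

lemma zpre (k K0 e : ℕ) (u U a : ℝ) (hu : 0 < u) (huU : u ≤ U) (ha : U ≤ a) (hK : K0 + 1 ≤ k)
    (he : (e : ℝ) * u ≤ 13 * U) :
    ((u ^ 2)⁻¹ * ((a / u) ^ (k + 1))⁻¹ * (1 + u ^ 2 * (a / u)) ^ e ≤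
      U ^ K0 / a ^ (K0 + 2) * Real.exp (13 * a * U)) ∧
    (((a / u) ^ (k + 1))⁻¹ * (1 + u ^ 2 * (a / u)) ^ e ≤
      U ^ (K0 + 2) / a ^ (K0 + 2) * Real.exp (13 * a * U)) := by
  have hU : 0 < U := by linarith
  have ha0 : 0 < a := by linarith
  have h1 : u ^ 2 * (a / u) = a * u := by field_simp
  rw [h1]
  have h2 : (1 + a * u) ^ e ≤ Real.exp (13 * a * U) := by
    calc (1 + a * u) ^ e ≤ (Real.exp (a * u)) ^ e := by
          apply pow_le_pow_left₀ (by positivity)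
          rw [add_comm]
          exact Real.add_one_le_exp _
      _ = Real.exp (e * (a * u)) := (Real.exp_nat_mul _ _).symm
      _ ≤ _ := by
          apply Real.exp_le_exp.mpr
          nlinarith
  have h3 : ((a / u) ^ (k + 1))⁻¹ ≤ (u / a) ^ (K0 + 2) := by
    rw [← inv_pow, inv_div]
    apply pow_le_pow_of_le_one (by positivity)
    · rw [div_le_one ha0]; linarith
    · omega
  have h4 : 0 < (1 + a * u) ^ e := by positivity
  constructor
  · calc (u ^ 2)⁻¹ * ((a / u) ^ (k + 1))⁻¹ * (1 + a * u) ^ e ≤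
        (u ^ 2)⁻¹ * (u / a) ^ (K0 + 2) * (1 + a * u) ^ e := by gcongr
      _ = u ^ K0 / a ^ (K0 + 2) * (1 + a * u) ^ e := by
          rw [div_pow, pow_add u K0 2]
          field_simp
      _ ≤ _ := by gcongr
  · calc ((a / u) ^ (k + 1))⁻¹ * (1 + a * u) ^ e ≤ (u / a) ^ (K0 + 2) * (1 + a * u) ^ e := by gcongr
      _ = u ^ (K0 + 2) / a ^ (K0 + 2) * (1 + a * u) ^ e := by rw [div_pow]
      _ ≤ _ := by gcongr

lemma zG (l k K0 : ℕ) (u U a b : ℝ) (hu : 0 < u) (huU : u ≤ U) (ha : U ≤ a) (hb : U ≤ b)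
    (hK : K0 + 1 ≤ k) (he : ((l + 3 : ℕ) : ℝ) * u ≤ 13 * U) (hl : (l : ℝ) * u ^ 2 ≤ 10 * U ^ 2)
    (haU : a * U < 1) (hbU : b * U < 1) (hb1 : b < 1) (hb2 : b ^ 2 * (b * U) / (1 - b * U) < 1) :
    (∑ j ∈ range (k + 1), ((l + 3).choose (k - j + 1) : ℝ) * (u ^ 2) ^ (k - j) *
        coeff j (G0 l k (u ^ 2)) +
      u ^ 2 * ∑ j ∈ range (k + 1), ((l + 3).choose (k - j + 1) : ℝ) * (u ^ 2) ^ (k - j) *
        coeff j (G1 l k (u ^ 2))) ≤
      U ^ K0 / a ^ (K0 + 2) * Real.exp (13 * a * U) * Real.exp (10 * (a ^ 2 * U ^ 2) / (1 - a * U)) +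
      U ^ (K0 + 2) / b ^ (K0 + 2) * Real.exp (13 * b * U) *
        (Real.exp (10 * (b ^ 2 * U ^ 2) / (1 - b * U)) *
        (1 / ((1 - b ^ 2) * (1 - b ^ 2 * (b * U) / (1 - b * U))))) := by
  have hU : 0 < U := by linarith
  have ha0 : 0 < a := by linarith
  have hb0 : 0 < b := by linarith
  have hzz : ∀ a : ℝ, 0 < a → u ^ 2 * (a / u) = a * u := fun a _ => by field_simp
  have hau : a * u < 1 := by nlinarith
  have hbu : b * u < 1 := by nlinarith
  have hE : ∀ a : ℝ, 0 < a → a * U < 1 → Real.exp (l * ((u ^ 2 * (a / u)) ^ 2 /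
      (1 - u ^ 2 * (a / u)))) ≤ Real.exp (10 * (a ^ 2 * U ^ 2) / (1 - a * U)) := by
    intro a ha0 haU
    rw [hzz a ha0]
    have hau : a * u < 1 := by nlinarith
    apply Real.exp_le_exp.mpr
    rw [← mul_div_assoc]
    apply div_le_div₀ (by positivity) _ (by linarith) (by nlinarith)
    have : (l : ℝ) * (a * u) ^ 2 = a ^ 2 * (l * u ^ 2) := by ring
    rw [this]
    nlinarith [sq_nonneg a]
  have hp := zpre k K0 (l + 3) u U a hu huU ha hK he
  have hq := zpre k K0 (l + 3) u U b hu huU hb hK he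
  have m0 := G0_MR l k (u ^ 2) (a / u) (by positivity) (by positivity) (by rw [hzz a ha0]; exact hau)
  have z0 := zb (l + 3) k (u ^ 2) (a / u) _ (G0 l k (u ^ 2)) (by positivity) (by positivity) m0
  have hv : u ^ 2 * (b / u) ^ 2 = b ^ 2 := by field_simp
  have hbb : b ^ 2 * (b * u) / (1 - b * u) ≤ b ^ 2 * (b * U) / (1 - b * U) := by
    apply div_le_div₀ (by positivity) _ (by linarith) (by nlinarith)
    gcongr
  have m1 := G1_MR l k (u ^ 2) (b / u) (by positivity) (by positivity) (by rw [hzz b hb0]; exact hbu)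
    (by rw [hv]; nlinarith) (by rw [hv, hzz b hb0]; linarith)
  have z1 := zb (l + 3) k (u ^ 2) (b / u) _ (G1 l k (u ^ 2)) (by positivity) (by positivity) m1
  have hA1 : Real.exp (l * ((u ^ 2 * (b / u)) ^ 2 / (1 - u ^ 2 * (b / u)))) *
      (1 / ((1 - u ^ 2 * (b / u) ^ 2) *
        (1 - u ^ 2 * (b / u) ^ 2 * (u ^ 2 * (b / u)) / (1 - u ^ 2 * (b / u))))) ≤
      Real.exp (10 * (b ^ 2 * U ^ 2) / (1 - b * U)) *
        (1 / ((1 - b ^ 2) * (1 - b ^ 2 * (b * U) / (1 - b * U)))) := by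
    have h1 := hE b hb0 hbU
    have h2 : 0 < 1 - b ^ 2 := by nlinarith
    have h3 : 0 < 1 - b ^ 2 * (b * U) / (1 - b * U) := by linarith
    apply mul_le_mul h1 _ _ (Real.exp_nonneg _)
    · rw [hv, hzz b hb0]
      apply one_div_le_one_div_of_le (by positivity)
      apply mul_le_mul_of_nonneg_left _ h2.le
      linarith
    · rw [hv, hzz b hb0]
      have h4 : 0 < 1 - b ^ 2 * (b * u) / (1 - b * u) := by linarith
      positivity
  have gen : ∀ P Q R : ℝ, u ^ 2 * ((u ^ 2)⁻¹ * P * Q * R) = (P * Q) * R := fun P Q R => by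
    field_simp
  apply add_le_add
  · calc _ ≤ _ := z0
      _ ≤ (U ^ K0 / a ^ (K0 + 2) * Real.exp (13 * a * U)) *
          Real.exp (10 * (a ^ 2 * U ^ 2) / (1 - a * U)) :=
          mul_le_mul hp.1 (hE a ha0 haU) (Real.exp_nonneg _) (by positivity)
      _ = _ := by ring
  · calc _ ≤ u ^ 2 * _ := mul_le_mul_of_nonneg_left z1 (by positivity)
      _ = (((b / u) ^ (k + 1))⁻¹ * (1 + u ^ 2 * (b / u)) ^ (l + 3)) * _ := gen _ _ _
      _ ≤ (U ^ (K0 + 2) / b ^ (K0 + 2) * Real.exp (13 * b * U)) * _ :=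
          mul_le_mul hq.2 hA1 m1.A_nonneg (by positivity)

/-! ### numerical values of exponentials -/

lemma expb (x y : ℝ) (m : ℕ) (hm : 0 < m) (h0 : 0 ≤ x) (h1 : x / m ≤ 1)
    (h : (∑ i ∈ range 8, (x / m) ^ i / (i.factorial : ℝ) +
      (x / m) ^ 8 * (8 + 1) / ((8 : ℕ).factorial * 8)) ^ m ≤ y) : Real.exp x ≤ y := by
  have hm' : (0 : ℝ) < m := by exact_mod_cast hm
  have h2 := Real.exp_bound' (x := x / m) (by positivity) h1 (n := 8) (by norm_num)
  have h3 : Real.exp x = Real.exp (x / m) ^ m := by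
    rw [← Real.exp_nat_mul]
    congr 1
    field_simp
  rw [h3]
  refine le_trans (pow_le_pow_left₀ (Real.exp_nonneg _) ?_ m) h
  refine h2.trans (le_of_eq ?_)
  norm_num

lemma p3 : Real.exp (13 * 0.05548 / (1 - 0.05548)) ≤ 2.1465 :=
  expb _ _ 1 (by norm_num) (by norm_num) (by norm_num)
    (by norm_num [Finset.sum_range_succ, Nat.factorial])

lemma p4 : Real.exp (13 * 0.07489 / (1 - 0.07489)) ≤ 2.865 :=
  expb _ _ 2 (by norm_num) (by norm_num) (by norm_num)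
    (by norm_num [Finset.sum_range_succ, Nat.factorial])

lemma p25 : Real.exp (13 * 0.13314 / (1 - 0.13314)) ≤ 7.37 :=
  expb _ _ 2 (by norm_num) (by norm_num) (by norm_num)
    (by norm_num [Finset.sum_range_succ, Nat.factorial])

lemma q3 : Real.exp (10 * 0.05548 ^ 2 / (1 - 0.05548)) ≤ 1.0332 :=
  expb _ _ 1 (by norm_num) (by norm_num) (by norm_num)
    (by norm_num [Finset.sum_range_succ, Nat.factorial])

lemma q4 : Real.exp (10 * 0.07489 ^ 2 / (1 - 0.07489)) ≤ 1.0626 :=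
  expb _ _ 1 (by norm_num) (by norm_num) (by norm_num)
    (by norm_num [Finset.sum_range_succ, Nat.factorial])

lemma q25 : Real.exp (10 * 0.13314 ^ 2 / (1 - 0.13314)) ≤ 1.227 :=
  expb _ _ 1 (by norm_num) (by norm_num) (by norm_num)
    (by norm_num [Finset.sum_range_succ, Nat.factorial])

lemma r1 : Real.exp (13 * 1.1 * 0.27367) ≤ 50.1 :=
  expb _ _ 4 (by norm_num) (by norm_num) (by norm_num)
    (by norm_num [Finset.sum_range_succ, Nat.factorial])

lemma r2 : Real.exp (10 * (1.1 ^ 2 * 0.27367 ^ 2) / (1 - 1.1 * 0.27367)) ≤ 3.657 :=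
  expb _ _ 2 (by norm_num) (by norm_num) (by norm_num)
    (by norm_num [Finset.sum_range_succ, Nat.factorial])

lemma r3 : Real.exp (13 * 0.85 * 0.27367) ≤ 20.6 :=
  expb _ _ 4 (by norm_num) (by norm_num) (by norm_num)
    (by norm_num [Finset.sum_range_succ, Nat.factorial])

lemma r4 : Real.exp (10 * (0.85 ^ 2 * 0.27367 ^ 2) / (1 - 0.85 * 0.27367)) ≤ 2.025 :=
  expb _ _ 1 (by norm_num) (by norm_num) (by norm_num)
    (by norm_num [Finset.sum_range_succ, Nat.factorial])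

lemma r5 : Real.exp (13 * 0.7 * 0.3649) ≤ 28 :=
  expb _ _ 4 (by norm_num) (by norm_num) (by norm_num)
    (by norm_num [Finset.sum_range_succ, Nat.factorial])

lemma r6 : Real.exp (10 * (0.7 ^ 2 * 0.3649 ^ 2) / (1 - 0.7 * 0.3649)) ≤ 2.41 :=
  expb _ _ 1 (by norm_num) (by norm_num) (by norm_num)
    (by norm_num [Finset.sum_range_succ, Nat.factorial])

/-- the bound of `EE` from `t ≤ T` -/
lemma EE_num (L k : ℕ) (t T A : ℝ) (ht : 0 < t) (htT : t ≤ T) (hT : T ≤ 1 / 4)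
    (hl : ((L - 1 : ℕ) : ℝ) * t ^ 2 ≤ 10 * T ^ 2) (hA : Real.exp (10 * T ^ 2 / (1 - T)) ≤ A) :
    EE L k t ≤ A * (1 / ((1 - T) * (1 - T * T / (1 - T)))) - 1 := by
  have h1 := EE_le L k t ht.le (by linarith)
  have h2 : Real.exp ((L - 1 : ℕ) * (t ^ 2 / (1 - t))) ≤ A := by
    refine le_trans (Real.exp_le_exp.mpr ?_) hA
    rw [← mul_div_assoc]
    exact div_le_div₀ (by positivity) hl (by linarith) (by linarith)
  have h3 : t * t / (1 - t) ≤ T * T / (1 - T) :=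
    div_le_div₀ (mul_self_nonneg T) (by nlinarith) (by linarith) (by linarith)
  have h4 : T * T / (1 - T) < 1 := by
    rw [div_lt_one (by linarith)]
    nlinarith
  have h5 : 1 / ((1 - t) * (1 - t * t / (1 - t))) ≤ 1 / ((1 - T) * (1 - T * T / (1 - T))) := by
    apply one_div_le_one_div_of_le
    · apply mul_pos <;> linarith
    · exact mul_le_mul (by linarith) (by linarith) (by linarith) (by linarith)
  have h6 : 0 ≤ 1 / ((1 - t) * (1 - t * t / (1 - t))) := by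
    apply one_div_nonneg.mpr
    apply mul_nonneg <;> linarith
  have h7 := mul_le_mul h2 h5 h6 ((Real.exp_nonneg _).trans hA)
  linarith

end IVN

open IVN in
theorem IVN_thm : IVNStmt := by
  intro n k L t hn hL hk
  obtain ⟨θ, h0, h1, h9, hθ⟩ := exists_theta n hn
  set l := Nat.log 2 n with hl
  have hl10 : 10 ≤ l := Nat.le_log_of_pow_le (by norm_num) (by norm_num; omega)
  have hL1 : L - 1 = l := by omega
  have hL2 : L + 2 = l + 3 := by omega
  have hl' : (0 : ℝ) ≤ l := Nat.cast_nonneg l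
  have hs : (36.055 : ℝ) ≤ √1300 := by
    apply Real.le_sqrt_of_sq_le
    norm_num
  have hl0 : (l : ℝ) * θ ≤ 10 := by linarith
  have hl3 : ((l + 3 : ℕ) : ℝ) * θ ≤ 13 := by push_cast; linarith
  -- general facts
  have key : ∀ c T : ℝ, 0 < c → c / 36.055 ≤ T → T ≤ 1 / 4 → t = c / √(n : ℝ) →
      0 < c / √1300 ∧ c / √1300 ≤ T ∧ t = c / √1300 * θ ^ 2 ∧ 0 < t ∧ t ≤ T ∧
      (l : ℝ) * t ^ 2 ≤ 10 * T ^ 2 ∧ ((l + 3 : ℕ) : ℝ) * t ≤ 13 * T := by
    intro c T hc hcT hT ht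
    have k1 : 0 < c / √1300 := by positivity
    have k2 : c / √1300 ≤ T := by
      refine le_trans ?_ hcT
      exact div_le_div_of_nonneg_left hc.le (by norm_num) hs
    have k3 : t = c / √1300 * θ ^ 2 := by rw [ht, hθ]
    set T' := c / √1300 with hT'
    have k4 : θ ^ 2 ≤ 1 := by nlinarith
    have k5 : t ≤ T := by
      rw [k3]
      nlinarith
    have k6 : (l : ℝ) * t ^ 2 ≤ 10 * T ^ 2 := by
      have e : (l : ℝ) * t ^ 2 = (l * θ) * θ ^ 3 * T' ^ 2 := by rw [k3]; ring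
      rw [e]
      calc (l * θ) * θ ^ 3 * T' ^ 2 ≤ 10 * 1 ^ 3 * T ^ 2 := by gcongr
        _ = 10 * T ^ 2 := by ring
    have k7 : ((l + 3 : ℕ) : ℝ) * t ≤ 13 * T := by
      have e : ((l + 3 : ℕ) : ℝ) * t = (((l + 3 : ℕ) : ℝ) * θ) * θ * T' := by rw [k3]; ring
      rw [e]
      calc (((l + 3 : ℕ) : ℝ) * θ) * θ * T' ≤ 13 * 1 * T := by gcongr
        _ = 13 * T := by ring
    exact ⟨k1, k2, k3, by rw [k3]; positivity, k5, k6, k7⟩
  -- the saddle point estimate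
  have saddle : ∀ (c T U a b : ℝ) (K0 : ℕ), 0 < c → c / 36.055 ≤ T → T ≤ 1 / 4 →
      t = c / √(n : ℝ) → c / 36.055 ≤ U ^ 2 → 0 < U → U ≤ a → U ≤ b → K0 + 1 ≤ k → a * U < 1 →
      b * U < 1 → b < 1 → b ^ 2 * (b * U) / (1 - b * U) < 1 →
      YY L k t ≤ Real.exp (13 * T / (1 - T)) * (U ^ K0 / a ^ (K0 + 2) * Real.exp (13 * a * U) *
        Real.exp (10 * (a ^ 2 * U ^ 2) / (1 - a * U)) +
      U ^ (K0 + 2) / b ^ (K0 + 2) * Real.exp (13 * b * U) *
        (Real.exp (10 * (b ^ 2 * U ^ 2) / (1 - b * U)) *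
        (1 / ((1 - b ^ 2) * (1 - b ^ 2 * (b * U) / (1 - b * U)))))) := by
    intro c T U a b K0 hc hcT hT ht hU2 hU0 ha hb hK haU hbU hb1 hb2
    obtain ⟨k1, k2, k3, k4, k5, k6, k7⟩ := key c T hc hcT hT ht
    have y := YY_le L k t k4 (by linarith)
    rw [hL1, hL2] at y
    have u2 : √t ^ 2 = t := Real.sq_sqrt k4.le
    have uu : √t = √(c / √1300) * θ := by
      rw [k3, Real.sqrt_mul k1.le, Real.sqrt_sq h0.le]
    have hcU : √(c / √1300) ≤ U := by
      apply Real.sqrt_le_iff.mpr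
      refine ⟨hU0.le, ?_⟩
      refine le_trans ?_ hU2
      exact div_le_div_of_nonneg_left hc.le (by norm_num) hs
    have v1 : √t ≤ U := by
      rw [uu]
      have := Real.sqrt_nonneg (c / √1300)
      nlinarith
    have v2 : ((l + 3 : ℕ) : ℝ) * √t ≤ 13 * U := by
      rw [uu]
      calc ((l + 3 : ℕ) : ℝ) * (√(c / √1300) * θ) = (((l + 3 : ℕ) : ℝ) * θ) * √(c / √1300) := by
            ring
        _ ≤ 13 * U := by gcongr
    have v3 : (l : ℝ) * √t ^ 2 ≤ 10 * U ^ 2 := by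
      rw [u2, k3]
      have w : c / √1300 ≤ U ^ 2 := by
        refine le_trans ?_ hU2
        exact div_le_div_of_nonneg_left hc.le (by norm_num) hs
      calc (l : ℝ) * (c / √1300 * θ ^ 2) = (l * θ) * θ * (c / √1300) := by ring
        _ ≤ 10 * 1 * U ^ 2 := by gcongr
        _ = 10 * U ^ 2 := by ring
    have z := zG l k K0 (√t) U a b (Real.sqrt_pos.mpr k4) v1 ha hb hK v2 v3 haU hbU hb1 hb2
    rw [u2] at z
    have p := pre (l + 3) t T k4 k5 (by linarith) k7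
    refine le_trans y ?_
    refine le_trans (mul_le_mul_of_nonneg_left z ?_) ?_
    · have : 0 < 1 - t := by linarith
      positivity
    · apply mul_le_mul_of_nonneg_right p
      have w0 : 0 < b := by linarith
      have w0' : 0 < a := by linarith
      have w1 : 0 < 1 - b ^ 2 := by nlinarith
      have w2 : 0 < 1 - b ^ 2 * (b * U) / (1 - b * U) := by linarith
      positivity
  rcases hk with ⟨hk, ht⟩ | ⟨hk4, hk24, ht⟩ | ⟨hk25, ht⟩
  · subst hk
    obtain ⟨k1, k2, k3, k4, k5, k6, k7⟩ := key 2 0.05548 (by norm_num) (by norm_num) (by norm_num) ht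
    have e := EE_num L 3 t 0.05548 _ k4 k5 (by norm_num) (by rw [hL1]; exact k6) q3
    have y := Y3 l t θ _ (by omega) h0 h1 h9 k1.le k3
    have p := (pre (l + 3) t 0.05548 k4 k5 (by norm_num) k7).trans p3
    have y2 : YY L 3 t ≤ 2.1465 * (1716 * 0.05548 ^ 3) := by
      unfold YY
      rw [hL1, hL2]
      refine mul_le_mul p (y.trans ?_) ?_ (by norm_num)
      · gcongr
      · obtain ⟨f0, f1, f2, f3, -, -⟩ := G0_three l t
        obtain ⟨g0, g1, g2, g3, -, -⟩ := G1_three l t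
        simp only [Finset.sum_range_succ, Finset.sum_range_zero, Nat.reduceSub, Nat.reduceAdd, f0,
          f1, f2, f3, g0, g1, g2, g3]
        have w : 0 ≤ ((l + 3).choose 4 : ℝ) * t ^ 3 + ((l + 3).choose 2 : ℝ) * t *
          ((l + 1) * t ^ 2) + ((l + 3).choose 1 : ℝ) * ((l + 1) * t ^ 3) := by positivity
        refine w.trans (le_of_eq ?_)
        ring
    norm_num at e y2 ⊢
    linarith
  · obtain ⟨k1, k2, k3, k4, k5, k6, k7⟩ :=
      key 2.7 0.07489 (by norm_num) (by norm_num) (by norm_num) ht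
    have e := EE_num L k t 0.07489 _ k4 k5 (by norm_num) (by rw [hL1]; exact k6) q4
    have p := (pre (l + 3) t 0.07489 k4 k5 (by norm_num) k7).trans p4
    rcases Nat.lt_or_ge k 6 with h6 | h6
    · rcases Nat.lt_or_ge k 5 with h5 | h5
      · have hk : k = 4 := by omega
        subst hk
        have y := Y4 l t θ _ (by omega) h0 h1 h9 k1.le k3
        have y2 : YY L 4 t ≤ 2.865 * (6214 * 0.07489 ^ 4 + 13 * 0.07489 ^ 3) := by
          unfold YY
          rw [hL1, hL2]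
          refine mul_le_mul p (y.trans ?_) ?_ (by norm_num)
          · gcongr
          · obtain ⟨f0, f1, f2, f3, f4, -⟩ := G0_four l t
            obtain ⟨g0, g1, g2, g3, g4, -⟩ := G1_four l t
            simp only [Finset.sum_range_succ, Finset.sum_range_zero, Nat.reduceSub, Nat.reduceAdd,
              f0, f1, f2, f3, f4, g0, g1, g2, g3, g4]
            have hq0 : 0 ≤ (l : ℝ) * (l - 1) / 2 + 2 * l + 1 := by nlinarith
            have w : 0 ≤ ((l + 3).choose 5 : ℝ) * t ^ 4 +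
              ((l + 3).choose 3 : ℝ) * t ^ 2 * ((l + 1) * t ^ 2) +
              ((l + 3).choose 2 : ℝ) * t * ((l + 1) * t ^ 3) +
              ((l + 3).choose 1 : ℝ) * (((l : ℝ) * (l - 1) / 2 + 2 * l + 1) * t ^ 4) +
              ((l + 3).choose 1 : ℝ) * t ^ 3 := by positivity
            refine w.trans (le_of_eq ?_)
            ring
        norm_num at e y2 ⊢
        linarith
      · have hk : k = 5 := by omega
        subst hk
        have y := Y5 l t θ _ (by omega) h0 h1 h9 k1.le k3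
        have y2 : YY L 5 t ≤ 2.865 * (20182.5 * 0.07489 ^ 5 + 91 * 0.07489 ^ 4) := by
          unfold YY
          rw [hL1, hL2]
          refine mul_le_mul p (y.trans ?_) ?_ (by norm_num)
          · gcongr
          · obtain ⟨f0, f1, f2, f3, f4, f5⟩ := G0_five l t
            obtain ⟨g0, g1, g2, g3, g4, g5⟩ := G1_five l t
            simp only [Finset.sum_range_succ, Finset.sum_range_zero, Nat.reduceSub, Nat.reduceAdd,
              f0, f1, f2, f3, f4, f5, g0, g1, g2, g3, g4, g5]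
            have hq0 : 0 ≤ (l : ℝ) * (l - 1) / 2 + 2 * l + 1 := by nlinarith
            have w : 0 ≤ ((l + 3).choose 6 : ℝ) * t ^ 5 +
              ((l + 3).choose 4 : ℝ) * t ^ 3 * ((l + 1) * t ^ 2) +
              ((l + 3).choose 3 : ℝ) * t ^ 2 * ((l + 1) * t ^ 3) +
              ((l + 3).choose 2 : ℝ) * t * (((l : ℝ) * (l - 1) / 2 + 2 * l + 1) * t ^ 4) +
              ((l + 3).choose 2 : ℝ) * t * t ^ 3 +
              ((l + 3).choose 1 : ℝ) * (((l : ℝ) ^ 2 + 3 * l + 1) * t ^ 5) +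
              ((l + 3).choose 1 : ℝ) * t ^ 4 := by positivity
            refine w.trans (le_of_eq ?_)
            ring
        norm_num at e y2 ⊢
        linarith
    · have y := saddle 2.7 0.07489 0.27367 1.1 0.85 5 (by norm_num) (by norm_num) (by norm_num) ht
        (by norm_num) (by norm_num) (by norm_num) (by norm_num) h6 (by norm_num) (by norm_num)
        (by norm_num) (by norm_num)
      have y2 : YY L k t ≤ 2.865 * (0.27367 ^ 5 / 1.1 ^ (5 + 2) * 50.1 * 3.657 +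
          0.27367 ^ (5 + 2) / 0.85 ^ (5 + 2) * 20.6 *
          (2.025 * (1 / ((1 - 0.85 ^ 2) * (1 - 0.85 ^ 2 * (0.85 * 0.27367) / (1 - 0.85 * 0.27367)))))) := by
        refine y.trans ?_
        have a1 := p4
        have a2 := r1
        have a3 := r2
        have a4 := r3
        have a5 := r4
        have a6 : (0 : ℝ) ≤ (1 / ((1 - 0.85 ^ 2) *
          (1 - 0.85 ^ 2 * (0.85 * 0.27367) / (1 - 0.85 * 0.27367)))) := by norm_num
        gcongr
      norm_num at e y2 ⊢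
      linarith
  · obtain ⟨k1, k2, k3, k4, k5, k6, k7⟩ :=
      key 4.8 0.13314 (by norm_num) (by norm_num) (by norm_num) ht
    have e := EE_num L k t 0.13314 _ k4 k5 (by norm_num) (by rw [hL1]; exact k6) q25
    have y := saddle 4.8 0.13314 0.3649 0.7 0.7 24 (by norm_num) (by norm_num) (by norm_num) ht
      (by norm_num) (by norm_num) (by norm_num) (by norm_num) hk25 (by norm_num) (by norm_num)
      (by norm_num) (by norm_num)
    have y2 : YY L k t ≤ 7.37 * (0.3649 ^ 24 / 0.7 ^ (24 + 2) * 28 * 2.41 +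
        0.3649 ^ (24 + 2) / 0.7 ^ (24 + 2) * 28 *
        (2.41 * (1 / ((1 - 0.7 ^ 2) * (1 - 0.7 ^ 2 * (0.7 * 0.3649) / (1 - 0.7 * 0.3649)))))) := by
      refine y.trans ?_
      have a1 := p25
      have a2 := r5
      have a3 := r6
      have a6 : (0 : ℝ) ≤ (1 / ((1 - 0.7 ^ 2) *
        (1 - 0.7 ^ 2 * (0.7 * 0.3649) / (1 - 0.7 * 0.3649)))) := by norm_num
      gcongr
    norm_num at e y2 ⊢
    linarith

end Pool.Agent.H37.UM
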