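import Pool.Agent.H37.UM.Stmts

set_option autoImplicit false

namespace Pool.Agent.H37.UM

open Finset

namespace IVR

/-- number of partitions -/
def pp (n : ℕ) : ℕ := Fintype.card n.Partition

/-- sum over the partitions of `n` of the multiplicity of `d` -/
def mm (d n : ℕ) : ℕ := ∑ p : n.Partition, p.parts.count d

/-- the sum of the divisors -/
def sd (n : ℕ) : ℕ := ∑ d ∈ n.divisors, d

lemma mm_rec (d n : ℕ) (hd : 1 ≤ d) (hn : d ≤ n) : mm d n = pp (n - d) + mm d (n - d) := by
  have h1 : mm d n = ∑ p : {p : n.Partition // d ∈ p.parts}, p.1.parts.count d := by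
    unfold mm
    rw [← Finset.sum_subtype (univ.filter (fun p : n.Partition => d ∈ p.parts))
      (by intro x; simp) (fun p => p.parts.count d)]
    symm
    apply Finset.sum_filter_of_ne
    intro x _ hx
    exact Multiset.count_ne_zero.mp hx
  rw [h1, ← Equiv.sum_comp (Nat.Partition.partitionWithPartEquiv hd hn).symm]
  simp only [Nat.Partition.partitionWithPartEquiv_symm_apply_parts, Multiset.count_cons_self,
    sum_add_distrib, mm, pp]
  simp [add_comm]

lemma mm_zero (d n : ℕ) (hn : n < d) : mm d n = 0 := by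
  unfold mm
  apply Finset.sum_eq_zero
  intro p _
  rw [Multiset.count_eq_zero]
  intro h
  exact absurd (Nat.Partition.le_of_mem_parts h) (by omega)

lemma mm_eq (d : ℕ) (hd : 1 ≤ d) (n : ℕ) :
    mm d n = ∑ i ∈ (Icc 1 n).filter (d ∣ ·), pp (n - i) := by
  induction n using Nat.strong_induction_on with
  | _ n ih =>
    rcases lt_or_ge n d with h | h
    · rw [mm_zero d n h]
      symm
      apply Finset.sum_eq_zero
      intro i hi
      rw [Finset.mem_filter, Finset.mem_Icc] at hi
      exact absurd (Nat.le_of_dvd (by omega) hi.2) (by omega)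
    · rw [mm_rec d n hd h, ih (n - d) (by omega)]
      have h1 : (Icc 1 n).filter (d ∣ ·) =
          insert d (((Icc 1 (n - d)).filter (d ∣ ·)).image (· + d)) := by
        ext i
        simp only [Finset.mem_filter, Finset.mem_Icc, Finset.mem_insert, Finset.mem_image]
        constructor
        · rintro ⟨⟨h1, h2⟩, h3⟩
          have h4 := Nat.le_of_dvd (by omega) h3
          rcases h4.eq_or_lt with h5 | h5
          · left; exact h5.symm
          · right
            refine ⟨i - d, ⟨⟨by omega, by omega⟩, ?_⟩, by omega⟩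
            exact Nat.dvd_sub h3 (dvd_refl d)
        · rintro (h1 | ⟨j, ⟨⟨h1, h2⟩, h3⟩, h4⟩)
          · subst h1
            exact ⟨⟨hd, h⟩, dvd_refl _⟩
          · subst h4
            exact ⟨⟨by omega, by omega⟩, Nat.dvd_add h3 (dvd_refl d)⟩
      rw [h1, Finset.sum_insert, Finset.sum_image]
      · congr 1
        apply Finset.sum_congr rfl
        intro i _
        congr 1
        omega
      · intro a _ b _ hab
        simpa using hab
      · intro hmem
        rw [Finset.mem_image] at hmem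
        obtain ⟨j, hj, hj2⟩ := hmem
        rw [Finset.mem_filter, Finset.mem_Icc] at hj
        omega

lemma sum_parts (n : ℕ) : n * pp n = ∑ d ∈ Icc 1 n, d * mm d n := by
  have h1 : ∀ p : n.Partition, ∑ d ∈ Icc 1 n, d * p.parts.count d = n := by
    intro p
    conv_rhs => rw [← p.parts_sum, Finset.sum_multiset_count]
    symm
    rw [Finset.sum_subset (s₂ := Icc 1 n)]
    · apply Finset.sum_congr rfl
      intro d _
      rw [smul_eq_mul, mul_comm]
    · intro d hd
      rw [Multiset.mem_toFinset] at hd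
      rw [Finset.mem_Icc]
      exact ⟨p.parts_pos hd, Nat.Partition.le_of_mem_parts hd⟩
    · intro d _ hd
      rw [Multiset.mem_toFinset] at hd
      rw [Multiset.count_eq_zero_of_notMem hd, zero_smul]
  calc n * pp n = ∑ p : n.Partition, n := by simp [pp, mul_comm]
    _ = ∑ p : n.Partition, ∑ d ∈ Icc 1 n, d * p.parts.count d := by
        apply Finset.sum_congr rfl
        intro p _
        rw [h1 p]
    _ = ∑ d ∈ Icc 1 n, d * mm d n := by
        rw [Finset.sum_comm]
        apply Finset.sum_congr rfl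
        intro d _
        rw [mm, Finset.mul_sum]

/-- swapping a sum over the divisors -/
lemma sum_swap {M : Type*} [AddCommMonoid M] (n : ℕ) (f : ℕ → ℕ → M) :
    ∑ i ∈ Icc 1 n, ∑ d ∈ i.divisors, f i d =
      ∑ d ∈ Icc 1 n, ∑ i ∈ (Icc 1 n).filter (d ∣ ·), f i d := by
  apply Finset.sum_comm'
  intro i d
  simp only [Finset.mem_Icc, Nat.mem_divisors, Finset.mem_filter]
  constructor
  · rintro ⟨⟨h1, h2⟩, h3, h4⟩
    have := Nat.le_of_dvd (by omega) h3
    have := Nat.pos_of_dvd_of_pos h3 (by omega)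
    exact ⟨⟨⟨h1, h2⟩, h3⟩, by omega, by omega⟩
  · rintro ⟨⟨⟨h1, h2⟩, h3⟩, h4, h5⟩
    exact ⟨⟨h1, h2⟩, h3, by omega⟩

lemma n_pp (n : ℕ) : n * pp n = ∑ i ∈ Icc 1 n, sd i * pp (n - i) := by
  rw [sum_parts]
  have h1 : ∑ i ∈ Icc 1 n, sd i * pp (n - i) =
      ∑ i ∈ Icc 1 n, ∑ d ∈ i.divisors, d * pp (n - i) := by
    apply Finset.sum_congr rfl
    intro i _
    rw [sd, Finset.sum_mul]
  rw [h1, sum_swap]
  apply Finset.sum_congr rfl
  intro d hd
  rw [Finset.mem_Icc] at hd
  rw [mm_eq d hd.1, Finset.mul_sum]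

/-! ### sums of divisor sums -/

lemma filter_dvd (q J : ℕ) (hq : 1 ≤ q) :
    ∑ i ∈ (Icc 1 J).filter (q ∣ ·), i / q = ∑ k ∈ Icc 1 (J / q), k := by
  have h1 : (Icc 1 J).filter (q ∣ ·) = (Icc 1 (J / q)).image (q * ·) := by
    ext i
    simp only [Finset.mem_filter, Finset.mem_Icc, Finset.mem_image]
    constructor
    · rintro ⟨⟨h1, h2⟩, k, hk⟩
      refine ⟨k, ⟨?_, ?_⟩, hk.symm⟩
      · rcases Nat.eq_zero_or_pos k with h | h
        · subst h; omega
        · exact h
      · rw [Nat.le_div_iff_mul_le (by omega), mul_comm, ← hk]; exact h2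
    · rintro ⟨k, ⟨h1, h2⟩, h3⟩
      rw [Nat.le_div_iff_mul_le (by omega)] at h2
      subst h3
      refine ⟨⟨Nat.mul_pos hq h1, by rw [mul_comm]; exact h2⟩, Dvd.intro k rfl⟩
  rw [h1, Finset.sum_image]
  · apply Finset.sum_congr rfl
    intro k _
    exact Nat.mul_div_cancel_left k (by omega)
  · intro a _ b _ hab
    exact Nat.eq_of_mul_eq_mul_left (by omega) hab

lemma two_sum (K : ℕ) : ∑ k ∈ Icc 1 K, (k : ℝ) = ((K : ℝ) ^ 2 + K) / 2 := by
  induction K with
  | zero => simp
  | succ K ih =>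
    rw [Finset.sum_Icc_succ_top (by omega), ih]
    push_cast
    ring

lemma sum_sd (J : ℕ) :
    (∑ i ∈ Icc 1 J, (sd i : ℝ)) ≤
      ((J : ℝ) ^ 2 * ∑ q ∈ Icc 1 J, 1 / (q : ℝ) ^ 2 + J * ∑ q ∈ Icc 1 J, 1 / (q : ℝ)) / 2 := by
  have h1 : ∑ i ∈ Icc 1 J, sd i = ∑ q ∈ Icc 1 J, ∑ k ∈ Icc 1 (J / q), k := by
    have h2 : ∑ i ∈ Icc 1 J, sd i = ∑ i ∈ Icc 1 J, ∑ d ∈ i.divisors, i / d := by
      apply Finset.sum_congr rfl
      intro i _
      rw [sd, ← Nat.sum_div_divisors i (fun d => d)]
    rw [h2, sum_swap]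
    apply Finset.sum_congr rfl
    intro d hd
    rw [Finset.mem_Icc] at hd
    exact filter_dvd d J hd.1
  have h2 : (∑ i ∈ Icc 1 J, (sd i : ℝ)) = ∑ q ∈ Icc 1 J, ∑ k ∈ Icc 1 (J / q), (k : ℝ) := by
    have h3 := congrArg (fun t : ℕ => (t : ℝ)) h1
    simp only [Nat.cast_sum] at h3
    exact h3
  rw [h2, Finset.mul_sum, Finset.mul_sum, ← Finset.sum_add_distrib, Finset.sum_div]
  apply Finset.sum_le_sum
  intro q hq
  rw [Finset.mem_Icc] at hq
  rw [two_sum]
  have hq0 : (0 : ℝ) < q := by exact_mod_cast hq.1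
  have h3 : ((J / q : ℕ) : ℝ) ≤ (J : ℝ) / q := Nat.cast_div_le
  have h4 : (0 : ℝ) ≤ ((J / q : ℕ) : ℝ) := Nat.cast_nonneg _
  have h5 : (J : ℝ) ^ 2 * (1 / (q : ℝ) ^ 2) + J * (1 / (q : ℝ)) =
      ((J : ℝ) / q) ^ 2 + (J : ℝ) / q := by
    field_simp
  rw [h5]
  have h6 : ((J / q : ℕ) : ℝ) ^ 2 ≤ ((J : ℝ) / q) ^ 2 := pow_le_pow_left₀ h4 h3 2
  linarith

lemma sum_sq (J : ℕ) (hJ : 5 ≤ J) :
    ∑ q ∈ Icc 1 J, 1 / (q : ℝ) ^ 2 ≤ 1.6455 - 1 / ((J : ℝ) + 1 / 2) := by
  induction J, hJ using Nat.le_induction with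
  | base =>
    norm_num [Finset.sum_Icc_succ_top]
  | succ n hn ih =>
    rw [Finset.sum_Icc_succ_top (by omega)]
    have h1 : 1 / (((n + 1 : ℕ) : ℝ)) ^ 2 ≤ 1 / ((n : ℝ) + 1 / 2) - 1 / (((n + 1 : ℕ) : ℝ) + 1 / 2) := by
      push_cast
      have hn0 : (0 : ℝ) ≤ n := Nat.cast_nonneg n
      rw [div_sub_div _ _ (by positivity) (by positivity), div_le_div_iff₀ (by positivity)
        (by positivity)]
      nlinarith
    linarith

lemma sum_h (J : ℕ) : ∑ q ∈ Icc 1 J, 1 / (q : ℝ) ≤ (J : ℝ) / 19 + 2.548 := by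
  have h18 : ∑ q ∈ Icc (1 : ℕ) 18, 1 / (q : ℝ) ≤ (18 : ℝ) / 19 + 2.548 := by
    norm_num [Finset.sum_Icc_succ_top]
  rcases le_total J 18 with h | h
  · have key : ∀ k J : ℕ, J + k = 18 → ∑ q ∈ Icc 1 J, 1 / (q : ℝ) ≤ (J : ℝ) / 19 + 2.548 := by
      intro k
      induction k with
      | zero =>
        intro J hJ
        have : J = 18 := by omega
        subst this
        exact_mod_cast h18
      | succ k ih =>
        intro J hJ
        have h1 := ih (J + 1) (by omega)
        rw [Finset.sum_Icc_succ_top (by omega)] at h1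
        have h2 : (1 : ℝ) / 19 ≤ 1 / ((J + 1 : ℕ) : ℝ) := by
          apply one_div_le_one_div_of_le
          · positivity
          · have : J + 1 ≤ 19 := by omega
            exact_mod_cast this
        push_cast at h1 h2 ⊢
        linarith
    exact key (18 - J) J (by omega)
  · induction J, h using Nat.le_induction with
    | base => exact_mod_cast h18
    | succ n hn ih =>
      rw [Finset.sum_Icc_succ_top (by omega)]
      have h2 : 1 / ((n + 1 : ℕ) : ℝ) ≤ (1 : ℝ) / 19 := by
        apply one_div_le_one_div_of_le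
        · norm_num
        · have : 19 ≤ n + 1 := by omega
          exact_mod_cast this
      push_cast at h2 ih ⊢
      linarith

lemma sd_bound (J : ℕ) : (∑ i ∈ Icc 1 J, (sd i : ℝ)) ≤ 0.85 * (J : ℝ) * (J + 1) + 0.6 * J := by
  have hJ0 : (0 : ℝ) ≤ J := Nat.cast_nonneg J
  have h1 := sum_sd J
  have h2 := sum_h J
  have h3 : ∑ q ∈ Icc 1 J, 1 / (q : ℝ) ^ 2 ≤ 1.6455 := by
    rcases le_total 5 J with h | h
    · have := sum_sq J h
      have h4 : (0 : ℝ) < 1 / ((J : ℝ) + 1 / 2) := by positivity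
      linarith
    · calc ∑ q ∈ Icc 1 J, 1 / (q : ℝ) ^ 2 ≤ ∑ q ∈ Icc (1 : ℕ) 5, 1 / (q : ℝ) ^ 2 := by
            apply Finset.sum_le_sum_of_subset_of_nonneg
            · apply Finset.Icc_subset_Icc le_rfl h
            · intro i _ _
              positivity
        _ ≤ 1.6455 := by norm_num [Finset.sum_Icc_succ_top]
  have h4 : (J : ℝ) ^ 2 * ∑ q ∈ Icc 1 J, 1 / (q : ℝ) ^ 2 ≤ (J : ℝ) ^ 2 * 1.6455 :=
    mul_le_mul_of_nonneg_left h3 (by positivity)
  have h5 : (J : ℝ) * ∑ q ∈ Icc 1 J, 1 / (q : ℝ) ≤ J * ((J : ℝ) / 19 + 2.548) :=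
    mul_le_mul_of_nonneg_left h2 hJ0
  nlinarith

/-! ### lower bound for the number of partitions -/

lemma sd_ge (i : ℕ) (hi : 1 ≤ i) : i ≤ sd i := by
  unfold sd
  exact Finset.single_le_sum (f := fun d => d) (fun _ _ => Nat.zero_le _)
    (Nat.mem_divisors_self i (by omega))

lemma choose_sum (k n : ℕ) :
    ∑ i ∈ range n, (n - i) * (i + k).choose k = (n + k + 1).choose (k + 2) := by
  induction n with
  | zero =>
    simp
  | succ n ih =>
    have h1 : ∑ i ∈ range (n + 1), (n + 1 - i) * (i + k).choose k =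
        ∑ i ∈ range (n + 1), (n - i) * (i + k).choose k + ∑ i ∈ range (n + 1), (i + k).choose k := by
      rw [← Finset.sum_add_distrib]
      apply Finset.sum_congr rfl
      intro i hi
      rw [Finset.mem_range] at hi
      have : n + 1 - i = n - i + 1 := by omega
      rw [this, Nat.add_mul, one_mul]
    rw [h1, Finset.sum_range_succ, ih, Nat.sub_self, zero_mul, add_zero]
    have h2 : ∑ i ∈ range (n + 1), (i + k).choose k = (n + k + 1).choose (k + 1) := by
      have := Nat.sum_range_add_choose n k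
      exact this
    rw [h2, show n + 1 + k + 1 = (n + k + 1) + 1 by ring, Nat.choose_succ_succ (n + k + 1) (k + 1)]
    ring

lemma pp_lower (k n : ℕ) : (n + k).choose k ≤ (k + 1).factorial * pp n := by
  induction k generalizing n with
  | zero =>
    simp only [add_zero, Nat.choose_zero_right, zero_add, Nat.factorial_one, one_mul]
    unfold pp
    exact Fintype.card_pos
  | succ k ih =>
    rcases Nat.eq_zero_or_pos n with h | h
    · subst h
      have h1 : 1 ≤ pp 0 := by
        unfold pp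
        exact Fintype.card_pos
      have h2 := Nat.factorial_pos (k + 1 + 1)
      rw [zero_add, Nat.choose_self]
      exact Nat.mul_pos h2 h1
    · have h1 : ∑ i ∈ range n, (n - i) * pp i ≤ n * pp n := by
        rw [n_pp n]
        have h2 : ∑ i ∈ Icc 1 n, sd i * pp (n - i) = ∑ i ∈ range n, sd (n - i) * pp i := by
          apply Finset.sum_nbij' (fun i => n - i) (fun i => n - i)
          · intro i hi
            simp only [Finset.mem_Icc, Finset.mem_range] at *
            omega
          · intro i hi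
            simp only [Finset.mem_Icc, Finset.mem_range] at *
            omega
          · intro i hi
            simp only [Finset.mem_Icc] at *
            omega
          · intro i hi
            simp only [Finset.mem_range] at *
            omega
          · intro i hi
            simp only [Finset.mem_Icc] at hi
            rw [Nat.sub_sub_self hi.2]
        rw [h2]
        apply Finset.sum_le_sum
        intro i hi
        rw [Finset.mem_range] at hi
        exact Nat.mul_le_mul_right _ (sd_ge _ (by omega))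
      have h3 : (n + k + 1).choose (k + 2) ≤ ∑ i ∈ range n, (n - i) * ((k + 1).factorial * pp i) := by
        rw [← choose_sum]
        apply Finset.sum_le_sum
        intro i _
        exact Nat.mul_le_mul_left _ (ih i)
      have h4 : ∑ i ∈ range n, (n - i) * ((k + 1).factorial * pp i) ≤
          (k + 1).factorial * (n * pp n) := by
        calc ∑ i ∈ range n, (n - i) * ((k + 1).factorial * pp i) =
            (k + 1).factorial * ∑ i ∈ range n, (n - i) * pp i := by
              rw [Finset.mul_sum]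
              apply Finset.sum_congr rfl
              intro i _
              ring
          _ ≤ _ := Nat.mul_le_mul_left _ h1
      have h5 : n * (n + k + 1).choose (k + 1) = (k + 2) * (n + k + 1).choose (k + 2) := by
        have h6 := Nat.choose_succ_right_eq (n + k + 1) (k + 1)
        have h7 : n + k + 1 - (k + 1) = n := by omega
        rw [h7] at h6
        rw [mul_comm n, ← h6]
        ring
      have h8 : n * (n + k + 1).choose (k + 1) ≤ n * ((k + 2).factorial * pp n) := by
        rw [h5, Nat.factorial_succ (k + 1)]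
        calc (k + 2) * (n + k + 1).choose (k + 2) ≤ (k + 2) * ((k + 1).factorial * (n * pp n)) :=
              Nat.mul_le_mul_left _ (h3.trans h4)
          _ = n * ((k + 1 + 1) * (k + 1).factorial * pp n) := by ring
      exact Nat.le_of_mul_le_mul_left h8 h

/-! ### the number of partitions without parts `1` -/

/-- partitions without parts `1` -/
def qq (n : ℕ) : ℕ := Fintype.card {p : n.Partition // 1 ∉ p.parts}

lemma pp_succ (n : ℕ) : pp (n + 1) = pp n + qq (n + 1) := by
  unfold pp qq
  have h1 := Fintype.card_congr (Nat.Partition.partitionWithPartEquiv (n := n + 1) (a := 1) le_rfl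
    (by omega))
  have h2 := Fintype.card_subtype_compl (fun p : (n + 1).Partition => 1 ∈ p.parts)
  have h3 := Fintype.card_subtype_le (fun p : (n + 1).Partition => 1 ∈ p.parts)
  have h4 : Fintype.card (n + 1 - 1).Partition = Fintype.card n.Partition := rfl
  rw [h2, ← h4, ← h1]
  omega

lemma qq_zero : qq 0 = 1 := by
  unfold qq
  rw [Fintype.card_eq_one_iff]
  refine ⟨⟨default, by simp⟩, fun y => ?_⟩
  apply Subtype.ext
  exact Subsingleton.elim _ _

lemma qq_one : qq 1 = 0 := by
  unfold qq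
  rw [Fintype.card_eq_zero_iff]
  refine ⟨fun y => y.2 ?_⟩
  simp

/-- the largest part -/
lemma exists_max {n : ℕ} (hn : 1 ≤ n) (p : n.Partition) :
    ∃ M ∈ p.parts, ∀ i ∈ p.parts, i ≤ M := by
  have h1 : p.parts.toFinset.Nonempty := by
    by_contra h
    rw [Finset.not_nonempty_iff_eq_empty, Multiset.toFinset_eq_empty] at h
    have := p.parts_sum
    rw [h, Multiset.sum_zero] at this
    omega
  refine ⟨p.parts.toFinset.max' h1, ?_, ?_⟩
  · exact Multiset.mem_toFinset.mp (Finset.max'_mem _ h1)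
  · intro i hi
    exact Finset.le_max' _ i (Multiset.mem_toFinset.mpr hi)

lemma qq_mono (n : ℕ) (hn : 1 ≤ n) : qq n ≤ qq (n + 1) := by
  unfold qq
  choose M hM1 hM2 using fun p : {p : n.Partition // 1 ∉ p.parts} => exists_max hn p.1
  have hsum : ∀ p : {p : n.Partition // 1 ∉ p.parts}, M p + (p.1.parts.erase (M p)).sum = n := by
    intro p
    have := congrArg Multiset.sum (Multiset.cons_erase (hM1 p))
    rw [Multiset.sum_cons, p.1.parts_sum] at this
    exact this
  let f : {p : n.Partition // 1 ∉ p.parts} → {p : (n + 1).Partition // 1 ∉ p.parts} := fun p =>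
    ⟨⟨(M p + 1) ::ₘ p.1.parts.erase (M p), by
        intro i hi
        rw [Multiset.mem_cons] at hi
        rcases hi with h | h
        · omega
        · exact p.1.parts_pos (Multiset.mem_of_mem_erase h), by
        rw [Multiset.sum_cons]
        have := hsum p
        omega⟩, by
        intro h
        rw [Multiset.mem_cons] at h
        rcases h with h | h
        · have := p.1.parts_pos (hM1 p)
          omega
        · exact p.2 (Multiset.mem_of_mem_erase h)⟩
  apply Fintype.card_le_of_injective f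
  intro p q hpq
  have h1 : (M p + 1) ::ₘ p.1.parts.erase (M p) = (M q + 1) ::ₘ q.1.parts.erase (M q) :=
    congrArg (fun t => t.1.parts) hpq
  have h2 : ∀ p q : {p : n.Partition // 1 ∉ p.parts},
      (M p + 1) ::ₘ p.1.parts.erase (M p) = (M q + 1) ::ₘ q.1.parts.erase (M q) → M p ≤ M q := by
    intro p q h
    have h3 : M p + 1 ∈ (M q + 1) ::ₘ q.1.parts.erase (M q) := by
      rw [← h]
      exact Multiset.mem_cons_self _ _
    rw [Multiset.mem_cons] at h3
    rcases h3 with h3 | h3
    · omega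
    · have := hM2 q _ (Multiset.mem_of_mem_erase h3)
      omega
  have h3 : M p = M q := le_antisymm (h2 p q h1) (h2 q p h1.symm)
  rw [h3, Multiset.cons_inj_right] at h1
  apply Subtype.ext
  apply Nat.Partition.ext
  rw [← Multiset.cons_erase (hM1 p), ← Multiset.cons_erase (hM1 q), h3, h1]

/-! ### power series -/

open PowerSeries

noncomputable def S (m : ℕ) : PowerSeries ℝ := PowerSeries.mk fun n => (sk m n : ℝ)
noncomputable def A : PowerSeries ℝ := PowerSeries.mk fun n => (sd n : ℝ)
noncomputable def B : PowerSeries ℝ := PowerSeries.mk fun n => ∑ i ∈ Icc 1 n, (sd i : ℝ)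
noncomputable def C' : PowerSeries ℝ := PowerSeries.mk fun n => 0.85 * (n : ℝ) * (n + 1) + 0.6 * n

lemma coeff_zero_mul (F : PowerSeries ℝ) : coeff 0 ((1 - X) * F) = coeff 0 F := by
  rw [sub_mul, one_mul, map_sub, coeff_zero_X_mul, sub_zero]

lemma coeff_succ_mul (F : PowerSeries ℝ) (n : ℕ) :
    coeff (n + 1) ((1 - X) * F) = coeff (n + 1) F - coeff n F := by
  rw [sub_mul, one_mul, map_sub, coeff_succ_X_mul]

lemma S_succ (m : ℕ) : (1 - X) * S (m + 1) = S m := by
  ext n
  cases n with
  | zero =>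
    rw [coeff_zero_mul]
    simp [S, sk]
  | succ n =>
    rw [coeff_succ_mul]
    simp only [S, coeff_mk, sk]
    rw [Finset.sum_range_succ _ (n + 1)]
    push_cast
    ring

lemma B_mul : (1 - X) * B = A := by
  ext n
  cases n with
  | zero =>
    rw [coeff_zero_mul]
    simp [A, B, sd]
  | succ n =>
    rw [coeff_succ_mul]
    simp only [A, B, coeff_mk]
    rw [Finset.sum_Icc_succ_top (by omega)]
    ring

lemma C_mul : (1 - X) * ((1 - X) * ((1 - X) * C')) =
    PowerSeries.C (2.3 : ℝ) * X - PowerSeries.C (0.6 : ℝ) * X ^ 2 := by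
  ext n
  rcases n with _ | _ | _ | n
  · simp only [coeff_zero_mul]
    simp [C']
  · simp only [coeff_zero_mul, coeff_succ_mul]
    simp [C', coeff_X_pow]
    norm_num
  · simp only [coeff_zero_mul, coeff_succ_mul]
    simp [C', coeff_X_pow]
    norm_num
  · simp only [coeff_succ_mul]
    simp [C', coeff_X_pow]
    ring

noncomputable def th (F : PowerSeries ℝ) : PowerSeries ℝ := X * derivative ℝ F

lemma coeff_th (F : PowerSeries ℝ) (n : ℕ) : coeff n (th F) = n * coeff n F := by
  unfold th
  cases n with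
  | zero => simp
  | succ n =>
    rw [coeff_succ_X_mul, coeff_derivative]
    push_cast
    ring

lemma th_mul (F : PowerSeries ℝ) : th ((1 - X) * F) = (1 - X) * th F - X * F := by
  unfold th
  rw [Derivation.leibniz]
  simp only [map_sub, derivative_X, smul_eq_mul, Derivation.map_one_eq_zero]
  ring

lemma E_zero : th (S 0) = A * S 0 := by
  ext n
  rw [coeff_th, coeff_mul, Finset.Nat.sum_antidiagonal_eq_sum_range_succ
    (fun i j => coeff i A * coeff j (S 0))]
  simp only [S, A, coeff_mk]
  have h1 := n_pp n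
  have h2 : ∑ i ∈ Icc 1 n, sd i * pp (n - i) = ∑ i ∈ range (n + 1), sd i * pp (n - i) := by
    rw [Finset.sum_range_succ']
    have : sd 0 = 0 := by simp [sd]
    rw [this, zero_mul, add_zero]
    symm
    apply Finset.sum_nbij' (fun i => i + 1) (fun i => i - 1)
    · intro i hi
      simp only [Finset.mem_Icc, Finset.mem_range] at *
      omega
    · intro i hi
      simp only [Finset.mem_Icc, Finset.mem_range] at *
      omega
    · intro i hi
      omega
    · intro i hi
      simp only [Finset.mem_Icc] at *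
      omega
    · intro i hi
      rfl
  rw [h2] at h1
  have h3 := congrArg (fun t : ℕ => (t : ℝ)) h1
  simp only [Nat.cast_sum, Nat.cast_mul] at h3
  exact h3

lemma one_sub_X_ne : (1 - X : PowerSeries ℝ) ≠ 0 := by
  intro h
  have := congrArg (coeff 0) h
  simp at this

lemma E_all (m : ℕ) : th (S m) = A * S m + PowerSeries.C (m : ℝ) * X * S (m + 1) := by
  induction m with
  | zero => rw [E_zero]; simp
  | succ m ih =>
    apply mul_left_cancel₀ one_sub_X_ne
    have h1 := th_mul (S (m + 1))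
    rw [S_succ, ih] at h1
    have h2 : (1 - X) * th (S (m + 1)) = A * S m + PowerSeries.C (m : ℝ) * X * S (m + 1) +
        X * S (m + 1) := by
      rw [h1]; ring
    rw [h2]
    have h3 := S_succ m
    have h4 := S_succ (m + 1)
    push_cast
    rw [map_add, map_one]
    linear_combination (-A) * h3 - (PowerSeries.C (m : ℝ) + 1) * X * h4

lemma mul_le (F G H : PowerSeries ℝ) (h1 : ∀ n, coeff n F ≤ coeff n G) (h2 : ∀ n, 0 ≤ coeff n H)
    (n : ℕ) : coeff n (F * H) ≤ coeff n (G * H) := by
  rw [coeff_mul, coeff_mul]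
  apply Finset.sum_le_sum
  intro p _
  exact mul_le_mul_of_nonneg_right (h1 _) (h2 _)

lemma B_le (n : ℕ) : coeff n B ≤ coeff n C' := by
  simp only [B, C', coeff_mk]
  exact sd_bound n

lemma D1_nonneg (n : ℕ) : 0 ≤ coeff n ((1 - X) * S 0) := by
  cases n with
  | zero => rw [coeff_zero_mul]; simp [S]
  | succ n =>
    rw [coeff_succ_mul]
    simp only [S, coeff_mk]
    have h : sk 0 (n + 1) = sk 0 n + qq (n + 1) := pp_succ n
    rw [h]
    push_cast
    have : (0 : ℝ) ≤ qq (n + 1) := Nat.cast_nonneg _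
    linarith

lemma coeff_D1 (n : ℕ) : coeff n ((1 - X) * S 0) = (qq n : ℝ) := by
  cases n with
  | zero =>
    rw [coeff_zero_mul, qq_zero]
    simp only [S, coeff_mk, sk]
    simp
  | succ n =>
    rw [coeff_succ_mul]
    simp only [S, coeff_mk]
    have h : sk 0 (n + 1) = sk 0 n + qq (n + 1) := pp_succ n
    rw [h]
    push_cast
    ring

lemma bound_nonneg (m n : ℕ) : ((n + 1 : ℕ) : ℝ) * sk m (n + 1) ≤
    1.7 * sk (m + 2) n + (0.6 + m) * sk (m + 1) n := by
  have h0 : ∀ n, 0 ≤ coeff n ((1 - X) * S m) := by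
    intro n
    cases m with
    | zero => exact D1_nonneg n
    | succ m => rw [S_succ]; simp only [S, coeff_mk]; exact Nat.cast_nonneg _
  have h1 := mul_le B C' ((1 - X) * S m) B_le h0 (n + 1)
  have h2 : B * ((1 - X) * S m) = A * S m := by rw [← B_mul]; ring
  have h3 : C' * ((1 - X) * S m) = X * (PowerSeries.C (1.7 : ℝ) * S (m + 2) +
      PowerSeries.C (0.6 : ℝ) * S (m + 1)) := by
    rw [← S_succ m, ← S_succ (m + 1)]
    have h4 := C_mul
    have h5 : PowerSeries.C (2.3 : ℝ) = PowerSeries.C (1.7 : ℝ) + PowerSeries.C (0.6 : ℝ) := by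
      rw [← map_add]; norm_num
    rw [h5] at h4
    linear_combination S (m + 1 + 1) * h4
  rw [h2, h3] at h1
  have h6 := congrArg (coeff (n + 1)) (E_all m)
  rw [coeff_th, map_add, mul_assoc, coeff_C_mul, coeff_succ_X_mul] at h6
  rw [coeff_succ_X_mul, map_add, coeff_C_mul, coeff_C_mul] at h1
  simp only [S, coeff_mk] at h1 h6
  nlinarith

lemma bound_neg (n : ℕ) (hn : 999 ≤ n) : ((n + 1 : ℕ) : ℝ) * qq (n + 1) ≤ 1.7 * sk 1 n := by
  set D1 : PowerSeries ℝ := (1 - X) * S 0 with hD1
  set D2 : PowerSeries ℝ := (1 - X) * D1 with hD2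
  have h0 : ∀ n, 0 ≤ coeff n (D2 + X) := by
    intro n
    rw [map_add, hD2]
    rcases n with _ | _ | n
    · rw [coeff_zero_mul, hD1, coeff_D1]
      simp
    · rw [coeff_succ_mul, hD1, coeff_D1, coeff_D1, qq_zero, qq_one]
      simp
    · rw [coeff_succ_mul, hD1, coeff_D1, coeff_D1, coeff_X]
      have := qq_mono (n + 1) (by omega)
      have h : (qq (n + 1) : ℝ) ≤ qq (n + 1 + 1) := by exact_mod_cast this
      simp only [Nat.add_eq_right, Nat.add_eq_zero_iff, one_ne_zero, and_false, if_false, add_zero]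
      linarith
  have h1 := mul_le B C' (D2 + X) B_le h0 (n + 1)
  rw [mul_add, mul_add, map_add, map_add] at h1
  have h2 : B * D2 = A * D1 := by rw [hD2, ← B_mul]; ring
  have h3 : C' * D2 = X * (PowerSeries.C (1.7 : ℝ) * S 1 + PowerSeries.C (0.6 : ℝ) * S 0) := by
    rw [hD2, hD1, ← S_succ 0]
    have h4 := C_mul
    have h5 : PowerSeries.C (2.3 : ℝ) = PowerSeries.C (1.7 : ℝ) + PowerSeries.C (0.6 : ℝ) := by
      rw [← map_add]; norm_num
    rw [h5] at h4
    linear_combination S (0 + 1) * h4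
  rw [h2, h3, mul_comm B X, mul_comm C' X] at h1
  simp only [coeff_succ_X_mul] at h1
  rw [map_add, coeff_C_mul, coeff_C_mul] at h1
  have h6 := th_mul (S 0)
  rw [E_zero] at h6
  have h7 : th D1 = A * D1 - X * S 0 := by
    rw [hD1, h6]; ring
  have h8 := congrArg (coeff (n + 1)) h7
  have h8' : coeff (n + 1) D1 = (qq (n + 1) : ℝ) := coeff_D1 (n + 1)
  rw [coeff_th, map_sub, coeff_succ_X_mul, h8'] at h8
  have h9 : (0 : ℝ) ≤ coeff n B := by
    simp only [B, coeff_mk]
    apply Finset.sum_nonneg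
    intro i _
    exact Nat.cast_nonneg _
  simp only [S, coeff_mk, C', sk] at h1 h8
  have h10 := pp_lower 3 n
  have h11 : (n + 3).choose 3 * 6 = (n + 3) * (n + 2) * (n + 1) := by
    have := Nat.descFactorial_eq_factorial_mul_choose (n + 3) 3
    simp only [Nat.descFactorial, Nat.factorial] at this
    have e1 : n + 3 - 0 = n + 3 := by omega
    have e2 : n + 3 - 1 = n + 2 := by omega
    have e3 : n + 3 - 2 = n + 1 := by omega
    rw [e1, e2, e3] at this
    linarith
  have h12 : (n + 3) * (n + 2) * (n + 1) ≤ 144 * pp n := by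
    have : (3 + 1).factorial = 24 := rfl
    rw [this] at h10
    omega
  have h13 : ((n : ℝ) + 3) * (n + 2) * (n + 1) ≤ 144 * pp n := by exact_mod_cast h12
  have h14 : (pp n : ℝ) = (Fintype.card n.Partition : ℝ) := rfl
  have hn' : (999 : ℝ) ≤ n := by exact_mod_cast hn
  have h15 : 0.85 * (n : ℝ) * (n + 1) + 0.6 * n ≤ 0.4 * pp n := by
    nlinarith [mul_nonneg (sub_nonneg.mpr hn') (sub_nonneg.mpr hn'),
      mul_nonneg (mul_nonneg (sub_nonneg.mpr hn') (sub_nonneg.mpr hn')) (sub_nonneg.mpr hn')]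
  rw [h14] at h15
  simp only [sk]
  linarith

/-! ### the final inequality -/

lemma sk_mono (m : ℕ) : Monotone (sk m) := by
  apply monotone_nat_of_le_succ
  intro n
  cases m with
  | zero =>
    have h : sk 0 (n + 1) = sk 0 n + qq (n + 1) := pp_succ n
    omega
  | succ m =>
    simp only [sk]
    rw [Finset.sum_range_succ _ (n + 1)]
    omega

lemma combine (f : ℕ → ℕ) (g : ℕ → ℕ) (hfg : ∀ i, f (i + 1) = f i + g (i + 1)) (n V : ℕ)
    (δ M : ℝ) (hV : 1 ≤ V) (hVn : V ≤ n) (_hM : 0 ≤ M)
    (hg : ∀ i, 1 ≤ i → i ≤ n → (g i : ℝ) ≤ δ) (h0 : 0 ≤ δ)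
    (h : (n : ℝ) * δ ≤ 1.7 * (∑ j ∈ range (n + 1), f j : ℕ) + M * f n) :
    (f n : ℝ) * V * (1 - M * V / (2 * n)) ≤
      (1 + 0.85 * (V : ℝ) ^ 2 / n) * (∑ j ∈ range (n + 1), f j : ℕ) := by
  have h1 : ∀ j, j ≤ n → (f n : ℝ) - j * δ ≤ f (n - j) := by
    intro j
    induction j with
    | zero => intro _; simp
    | succ j ih =>
      intro hj
      have h2 := ih (by omega)
      have h3 := hfg (n - (j + 1))
      have h4 : n - (j + 1) + 1 = n - j := by omega
      rw [h4] at h3
      have h5 := hg (n - j) (by omega) (by omega)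
      rw [h3] at h2
      push_cast at h2 ⊢
      linarith
  have h2 : ∑ j ∈ range V, ((f n : ℝ) - j * δ) ≤ (∑ j ∈ range (n + 1), f j : ℕ) := by
    calc ∑ j ∈ range V, ((f n : ℝ) - j * δ) ≤ ∑ j ∈ range V, (f (n - j) : ℝ) := by
          apply Finset.sum_le_sum
          intro j hj
          rw [Finset.mem_range] at hj
          exact h1 j (by omega)
      _ ≤ ∑ j ∈ range (n + 1), (f (n - j) : ℝ) := by
          apply Finset.sum_le_sum_of_subset_of_nonneg
          · intro j hj
            rw [Finset.mem_range] at *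
            omega
          · intro j _ _
            exact Nat.cast_nonneg _
      _ = ∑ j ∈ range (n + 1), (f j : ℝ) := by
          rw [← Finset.sum_range_reflect]
          apply Finset.sum_congr rfl
          intro j hj
          rw [Finset.mem_range] at hj
          congr 2
          omega
      _ = _ := by push_cast; rfl
  have h3 : ∑ j ∈ range V, ((f n : ℝ) - j * δ) = V * f n - (V : ℝ) * (V - 1) / 2 * δ := by
    rw [Finset.sum_sub_distrib, ← Finset.sum_mul]
    have : (∑ j ∈ range V, (j : ℝ)) = (V : ℝ) * (V - 1) / 2 := by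
      clear h2 hV hVn
      induction V with
      | zero => simp
      | succ V ih => rw [Finset.sum_range_succ, ih]; push_cast; ring
    rw [this]
    simp
  rw [h3] at h2
  set F : ℝ := ((∑ j ∈ range (n + 1), f j : ℕ) : ℝ) with hF
  have hn0 : (0 : ℝ) < n := by
    have : 1 ≤ n := by omega
    exact_mod_cast this
  have hV0 : (0 : ℝ) < V := by exact_mod_cast hV
  have h4 : (V : ℝ) * f n - (V : ℝ) ^ 2 / 2 * δ ≤ F := by nlinarith
  have h5 : (V : ℝ) ^ 2 / 2 * δ ≤ (V : ℝ) ^ 2 / 2 * ((1.7 * F + M * f n) / n) := by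
    apply mul_le_mul_of_nonneg_left _ (by positivity)
    rw [le_div_iff₀ hn0]
    linarith
  have h6 : (f n : ℝ) * V * (1 - M * V / (2 * n)) = V * f n - (V : ℝ) ^ 2 / 2 * (M * f n / n) := by
    field_simp
  have h7 : (1 + 0.85 * (V : ℝ) ^ 2 / n) * F = F + (V : ℝ) ^ 2 / 2 * (1.7 * F / n) := by
    field_simp
    ring
  rw [h6, h7]
  have h8 : (V : ℝ) ^ 2 / 2 * ((1.7 * F + M * f n) / n) =
      (V : ℝ) ^ 2 / 2 * (1.7 * F / n) + (V : ℝ) ^ 2 / 2 * (M * f n / n) := by
    field_simp
  rw [h8] at h5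
  linarith

end IVR

open IVR in
theorem IVR_thm : IVRStmt := by
  intro n m V hn hm hV hVn
  obtain ⟨m, rfl⟩ : ∃ k, m = k + 1 := ⟨m - 1, by omega⟩
  rw [Nat.add_sub_cancel]
  obtain ⟨n, rfl⟩ : ∃ k, n = k + 1 := ⟨n - 1, by omega⟩
  have hsk : ∀ m n, sk (m + 1) n = ∑ j ∈ range (n + 1), sk m j := fun m n => rfl
  rw [hsk]
  cases m with
  | zero =>
    apply combine (sk 0) qq (fun i => pp_succ i) (n + 1) V (qq (n + 1)) _ hV hVn (le_max_left _ _)
    · intro i hi hin
      have h1 : ∀ k, i + k ≤ n + 1 → qq i ≤ qq (i + k) := by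
        intro k
        induction k with
        | zero => intro _; exact le_rfl
        | succ k ih =>
          intro hk
          exact (ih (by omega)).trans (qq_mono (i + k) (by omega))
      have h2 := h1 (n + 1 - i) (by omega)
      rw [show i + (n + 1 - i) = n + 1 by omega] at h2
      exact_mod_cast h2
    · exact Nat.cast_nonneg _
    · have h1 := bound_neg n (by omega)
      have h2 : (sk 1 n : ℝ) ≤ sk 1 (n + 1) := by exact_mod_cast sk_mono 1 (Nat.le_succ n)
      have h3 : (0 : ℝ) ≤ max 0 (((0 + 1 : ℕ) : ℝ) - 1.4) * sk 0 (n + 1) :=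
        mul_nonneg (le_max_left _ _) (Nat.cast_nonneg _)
      rw [hsk 0 (n + 1)] at h2
      linarith
  | succ m =>
    apply combine (sk (m + 1)) (sk m) _ (n + 1) V (sk m (n + 1)) _ hV hVn (le_max_left _ _)
    · intro i hi hin
      exact_mod_cast sk_mono m hin
    · exact Nat.cast_nonneg _
    · have h1 := bound_nonneg m n
      have h2 : (sk (m + 2) n : ℝ) ≤ sk (m + 2) (n + 1) := by
        exact_mod_cast sk_mono (m + 2) (Nat.le_succ n)
      have h3 : (sk (m + 1) n : ℝ) ≤ sk (m + 1) (n + 1) := by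
        exact_mod_cast sk_mono (m + 1) (Nat.le_succ n)
      have h4 : (0.6 + (m : ℝ)) ≤ max 0 (((m + 1 + 1 : ℕ) : ℝ) - 1.4) := by
        apply le_trans _ (le_max_right _ _)
        push_cast
        linarith
      have h5 : (0.6 + (m : ℝ)) * sk (m + 1) n ≤
          max 0 (((m + 1 + 1 : ℕ) : ℝ) - 1.4) * sk (m + 1) (n + 1) :=
        mul_le_mul h4 h3 (Nat.cast_nonneg _) (le_max_left _ _)
      rw [hsk (m + 1) (n + 1)] at h2
      linarith
    · intro i
      rw [hsk, hsk, Finset.sum_range_succ _ (i + 1)]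

end Pool.Agent.H37.UM
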