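import Pool.Agent.H37.UM.Stmts

set_option autoImplicit false

namespace Pool.Agent.H37.UM

namespace IVT

lemma log_bound (n : ℕ) (hn : 1300 ≤ n) : 100 * (Nat.log 2 n + 3) ≤ n := by
  have h1 : ∀ k : ℕ, 100 * (k + 11 + 3) ≤ 2 ^ (k + 11) := by
    intro k
    induction k with
    | zero => norm_num
    | succ k ih =>
      rw [show k + 1 + 11 = (k + 11) + 1 by ring, pow_succ]
      omega
  rcases lt_or_ge n 2048 with h | h
  · have : Nat.log 2 n < 11 := Nat.log_lt_of_lt_pow (by omega) (by norm_num; exact h)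
    omega
  · have h2 : 11 ≤ Nat.log 2 n := Nat.le_log_of_pow_le (by norm_num) (by norm_num; exact h)
    have h3 := h1 (Nat.log 2 n - 11)
    have h4 : 2 ^ Nat.log 2 n ≤ n := Nat.pow_log_le_self 2 (by omega)
    rw [show Nat.log 2 n - 11 + 11 = Nat.log 2 n by omega] at h3
    omega

lemma core (a b : ℝ) (j V : ℕ) (s t K κ c v0 v1 : ℝ) (ha : 0 ≤ a) (hj : (j : ℝ) = s ^ 2)
    (hs : 0 < s) (ht : t ≤ 1.00504 * s) (hV0 : v0 * s ≤ V) (hV1 : (V : ℝ) ≤ v1 * s)
    (hv0 : 0 < v0) (hc : 0 < c) (hK : K ≤ κ * s)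
    (hg : ∀ v : ℝ, v0 ≤ v → v ≤ v1 → 1.00504 * (1 + 0.85 * v ^ 2) ≤ c * v * (1 - κ * v / 2))
    (h : a * V * (1 - K * V / (2 * j)) ≤ (1 + 0.85 * (V : ℝ) ^ 2 / j) * b) : t * a ≤ c * b := by
  set v : ℝ := (V : ℝ) / s with hv
  have hVs : (V : ℝ) = v * s := by rw [hv]; field_simp
  have h1 : v0 ≤ v := by rw [hv, le_div_iff₀ hs]; exact hV0
  have h2 : v ≤ v1 := by rw [hv, div_le_iff₀ hs]; exact hV1
  have hvpos : 0 < v := lt_of_lt_of_le hv0 h1
  have h3 := hg v h1 h2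
  rw [hj, hVs] at h
  have h4 : a * (v * s) * (1 - K * (v * s) / (2 * s ^ 2)) = a * (v * s) * (1 - K * v / (2 * s)) := by
    field_simp
  have h5 : (1 + 0.85 * (v * s) ^ 2 / s ^ 2) * b = (1 + 0.85 * v ^ 2) * b := by
    field_simp
  rw [h4, h5] at h
  have h6 : K * v / (2 * s) ≤ κ * v / 2 := by
    rw [div_le_div_iff₀ (by positivity) (by norm_num)]
    nlinarith
  have h7 : t * (1 + 0.85 * v ^ 2) ≤ c * v * s * (1 - K * v / (2 * s)) := by
    calc t * (1 + 0.85 * v ^ 2) ≤ (1.00504 * s) * (1 + 0.85 * v ^ 2) :=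
          mul_le_mul_of_nonneg_right ht (by positivity)
      _ = s * (1.00504 * (1 + 0.85 * v ^ 2)) := by ring
      _ ≤ s * (c * v * (1 - κ * v / 2)) := mul_le_mul_of_nonneg_left h3 hs.le
      _ ≤ s * (c * v * (1 - K * v / (2 * s))) := by
          apply mul_le_mul_of_nonneg_left _ hs.le
          apply mul_le_mul_of_nonneg_left _ (by positivity)
          linarith
      _ = _ := by ring
  have h8 : (1 + 0.85 * v ^ 2) * (t * a) ≤ (1 + 0.85 * v ^ 2) * (c * b) := by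
    calc (1 + 0.85 * v ^ 2) * (t * a) = (t * (1 + 0.85 * v ^ 2)) * a := by ring
      _ ≤ (c * v * s * (1 - K * v / (2 * s))) * a := mul_le_mul_of_nonneg_right h7 ha
      _ = c * (a * (v * s) * (1 - K * v / (2 * s))) := by ring
      _ ≤ c * ((1 + 0.85 * v ^ 2) * b) := mul_le_mul_of_nonneg_left h hc.le
      _ = _ := by ring
  exact le_of_mul_le_mul_left h8 (by positivity)

end IVT

open IVT in
theorem IVT_thm (hIVR : IVRStmt) : IVTStmt := by
  intro n j m hn hjn hnj hm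
  have hlog := log_bound n hn
  have hj : 99 * n ≤ 100 * j := by omega
  have hj1 : 1287 ≤ j := by omega
  set s : ℝ := √(j : ℝ) with hs
  set t : ℝ := √(n : ℝ) with ht
  have hj1' : (1287 : ℝ) ≤ j := by exact_mod_cast hj1
  have hs2 : (j : ℝ) = s ^ 2 := by rw [hs, Real.sq_sqrt (Nat.cast_nonneg j)]
  have ht2 : (n : ℝ) = t ^ 2 := by rw [ht, Real.sq_sqrt (Nat.cast_nonneg n)]
  have hs0 : (35.87 : ℝ) ≤ s := by
    rw [hs]
    apply Real.le_sqrt_of_sq_le
    norm_num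
    linarith
  have ht0 : 0 ≤ t := Real.sqrt_nonneg _
  have hts : t ≤ 1.00504 * s := by
    apply le_of_sq_le_sq _ (by positivity)
    have : (99 : ℝ) * n ≤ 100 * j := by exact_mod_cast hj
    rw [hs2, ht2] at this
    nlinarith [sq_nonneg s]
  have hq1 : (Nat.sqrt j : ℝ) ≤ s := by
    rw [hs]
    apply Real.le_sqrt_of_sq_le
    exact_mod_cast Nat.sqrt_le' j
  have hq2 : s ≤ (Nat.sqrt j : ℝ) + 1 := by
    rw [hs]
    apply Real.sqrt_le_iff.mpr
    refine ⟨by positivity, ?_⟩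
    have := Nat.lt_succ_sqrt' j
    exact_mod_cast this.le
  have hq3 : Nat.sqrt j ≤ j := Nat.sqrt_le_self j
  have hq4 : 35 ≤ Nat.sqrt j := by
    rw [Nat.le_sqrt]
    omega
  refine ⟨fun h3 => ?_, fun h24 => ?_, fun h70 => ?_⟩
  · have h1 := hIVR j m (Nat.sqrt j) (by omega) hm (by omega) hq3
    apply core (sk (m - 1) j) (sk m j) j (Nat.sqrt j) s t (max 0 ((m : ℝ) - 1.4)) (1.6 / 35.87) 2
      0.972 1 (Nat.cast_nonneg _) hs2 (by linarith) hts (by linarith) (by linarith) (by norm_num)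
      (by norm_num) _ _ h1
    · have : (m : ℝ) ≤ 3 := by exact_mod_cast h3
      apply max_le
      · positivity
      · linarith
    · intro v hv0 hv1
      nlinarith
  · have e1 : 4 * Nat.sqrt j / 5 * 5 ≤ 4 * Nat.sqrt j := Nat.div_mul_le_self _ _
    have e2 : 4 * Nat.sqrt j ≤ 4 * Nat.sqrt j / 5 * 5 + 4 := by omega
    have e1' : ((4 * Nat.sqrt j / 5 : ℕ) : ℝ) * 5 ≤ 4 * (Nat.sqrt j : ℝ) := by exact_mod_cast e1
    have e2' : 4 * (Nat.sqrt j : ℝ) ≤ ((4 * Nat.sqrt j / 5 : ℕ) : ℝ) * 5 + 4 := by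
      exact_mod_cast e2
    have h1 := hIVR j m (4 * Nat.sqrt j / 5) (by omega) hm (by omega) (by omega)
    apply core (sk (m - 1) j) (sk m j) j (4 * Nat.sqrt j / 5) s t (max 0 ((m : ℝ) - 1.4))
      (22.6 / 35.87) 2.7 0.755 0.8 (Nat.cast_nonneg _) hs2 (by linarith) hts (by linarith)
      (by linarith) (by norm_num) (by norm_num) _ _ h1
    · have : (m : ℝ) ≤ 24 := by exact_mod_cast h24
      apply max_le
      · positivity
      · linarith
    · intro v hv0 hv1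
      nlinarith
  · have e1 : 9 * Nat.sqrt j / 20 * 20 ≤ 9 * Nat.sqrt j := Nat.div_mul_le_self _ _
    have e2 : 9 * Nat.sqrt j ≤ 9 * Nat.sqrt j / 20 * 20 + 19 := by omega
    have e1' : ((9 * Nat.sqrt j / 20 : ℕ) : ℝ) * 20 ≤ 9 * (Nat.sqrt j : ℝ) := by exact_mod_cast e1
    have e2' : 9 * (Nat.sqrt j : ℝ) ≤ ((9 * Nat.sqrt j / 20 : ℕ) : ℝ) * 20 + 19 := by
      exact_mod_cast e2
    have h1 := hIVR j m (9 * Nat.sqrt j / 20) (by omega) hm (by omega) (by omega)
    apply core (sk (m - 1) j) (sk m j) j (9 * Nat.sqrt j / 20) s t (max 0 ((m : ℝ) - 1.4))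
      (68.6 / 35.87) 4.8 0.41 0.45 (Nat.cast_nonneg _) hs2 (by linarith) hts (by linarith)
      (by linarith) (by norm_num) (by norm_num) _ _ h1
    · apply max_le
      · positivity
      · rcases h70 with h | h
        · have : (m : ℝ) ≤ 70 := by exact_mod_cast h
          linarith
        · have h2 : (25 : ℝ) * (m : ℝ) ^ 2 ≤ 81 * n := by exact_mod_cast h
          rw [ht2] at h2
          have h3 : 5 * (m : ℝ) ≤ 9 * t := by
            apply le_of_sq_le_sq _ (by positivity)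
            nlinarith
          linarith
    · intro v hv0 hv1
      nlinarith

end Pool.Agent.H37.UM
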